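import Mathlib

/-!
# Transversals of matrices with monotone rows (`MP_3d056f_co`)

Every `m × n` matrix, `m < n`, each of whose rows is strictly increasing or strictly decreasing,
has a transversal.  Induction with one blocked extreme cell.
-/

set_option autoImplicit false

namespace Pool.Agent.H40.ST2

universe u

/-- `f` is a transversal of the rows `R` in the columns `S` -/
structure Sol {ι C : Type} {α : Type u} (M : ι → C → α) (R : Finset ι) (S : Finset C) (f : ι → C) :
    Prop where
  mem : ∀ i ∈ R, f i ∈ S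
  inj : ∀ i ∈ R, ∀ k ∈ R, f i = f k → i = k
  val : ∀ i ∈ R, ∀ k ∈ R, M i (f i) = M k (f k) → i = k

theorem Sol.extend {ι C : Type} {α : Type u} [DecidableEq ι] [DecidableEq C] {M : ι → C → α}
    {R : Finset ι} {S : Finset C} {f : ι → C} {i : ι} {s : C}
    (h : Sol M (R.erase i) (S.erase s) f) (hs : s ∈ S)
    (hv : ∀ k ∈ R.erase i, M k (f k) ≠ M i s) : Sol M R S (Function.update f i s) := by
  have hu : ∀ k, k ≠ i → Function.update f i s k = f k := fun k hk =>
    Function.update_of_ne hk _ _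
  have hi : Function.update f i s i = s := Function.update_self _ _ _
  refine ⟨fun k hk => ?_, fun k hk l hl hkl => ?_, fun k hk l hl hkl => ?_⟩
  · by_cases hki : k = i
    · subst hki
      rw [hi]
      exact hs
    · rw [hu k hki]
      exact Finset.mem_of_mem_erase (h.mem k (Finset.mem_erase.2 ⟨hki, hk⟩))
  · by_cases hki : k = i
    · by_cases hli : l = i
      · rw [hki, hli]
      · exfalso
        rw [hki, hi, hu l hli] at hkl
        exact (Finset.mem_erase.1 (h.mem l (Finset.mem_erase.2 ⟨hli, hl⟩))).1 hkl.symm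
    · by_cases hli : l = i
      · exfalso
        rw [hli, hi, hu k hki] at hkl
        exact (Finset.mem_erase.1 (h.mem k (Finset.mem_erase.2 ⟨hki, hk⟩))).1 hkl
      · rw [hu k hki, hu l hli] at hkl
        exact h.inj k (Finset.mem_erase.2 ⟨hki, hk⟩) l (Finset.mem_erase.2 ⟨hli, hl⟩) hkl
  · by_cases hki : k = i
    · by_cases hli : l = i
      · rw [hki, hli]
      · exfalso
        rw [hki, hi, hu l hli] at hkl
        exact hv l (Finset.mem_erase.2 ⟨hli, hl⟩) hkl.symm
    · by_cases hli : l = i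
      · exfalso
        rw [hli, hi, hu k hki] at hkl
        exact hv k (Finset.mem_erase.2 ⟨hki, hk⟩) hkl
      · rw [hu k hki, hu l hli] at hkl
        exact h.val k (Finset.mem_erase.2 ⟨hki, hk⟩) l (Finset.mem_erase.2 ⟨hli, hl⟩) hkl

/-- the inductive statement: one row `j` must avoid an extreme column `c` -/
def Gst (m : ℕ) : Prop :=
  ∀ (ι C : Type) (α : Type u) [LinearOrder C] [LinearOrder α] (M : ι → C → α) (inc : ι → Prop),
    (∀ i, inc i → StrictMono (M i)) → (∀ i, ¬ inc i → StrictAnti (M i)) →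
    ∀ (R : Finset ι) (S : Finset C), R.card = m → S.card = m + 1 → ∀ j ∈ R, ∀ c ∈ S,
      ((∀ s ∈ S, c ≤ s) ∨ (∀ s ∈ S, s ≤ c)) → ∃ f : ι → C, Sol M R S f ∧ f j ≠ c

theorem free_of_Gst {m : ℕ} (h : Gst.{u} m) {ι C : Type} {α : Type u} [LinearOrder C] [LinearOrder α]
    (M : ι → C → α) (inc : ι → Prop) (h1 : ∀ i, inc i → StrictMono (M i))
    (h2 : ∀ i, ¬ inc i → StrictAnti (M i)) (R : Finset ι) (S : Finset C) (hR : R.card = m)
    (hS : S.card = m + 1) : ∃ f : ι → C, Sol M R S f := by
  have hne : S.Nonempty := Finset.card_pos.mp (by omega)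
  rcases R.eq_empty_or_nonempty with h0 | ⟨j, hj⟩
  · obtain ⟨c, hc⟩ := hne
    refine ⟨fun _ => c, ⟨fun i hi => ?_, fun i hi => ?_, fun i hi => ?_⟩⟩ <;>
    · rw [h0] at hi
      exact absurd hi (Finset.notMem_empty _)
  · obtain ⟨f, hf, -⟩ := h ι C α M inc h1 h2 R S hR hS j hj (S.min' hne) (S.min'_mem hne)
      (Or.inl fun s hs => S.min'_le s hs)
    exact ⟨f, hf⟩

/-- the step for a decreasing row `j` blocked at the first column `a` -/
theorem step {m : ℕ} (ih : ∀ m' < m, Gst.{u} m') {ι C : Type} {α : Type u} [LinearOrder C]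
    [LinearOrder α]
    (M : ι → C → α) (inc : ι → Prop) (h1 : ∀ i, inc i → StrictMono (M i))
    (h2 : ∀ i, ¬ inc i → StrictAnti (M i)) (R : Finset ι) (S : Finset C) (hR : R.card = m)
    (hS : S.card = m + 1) (j : ι) (hj : j ∈ R) (hjd : ¬ inc j) (a : C) (ha : a ∈ S)
    (haS : ∀ s ∈ S, a ≤ s) : ∃ f : ι → C, Sol M R S f ∧ f j ≠ a := by
  classical
  have hm1 : 1 ≤ m := by
    rw [← hR]
    exact Finset.card_pos.mpr ⟨j, hj⟩
  -- the last column
  have hne : S.Nonempty := ⟨a, ha⟩
  obtain ⟨z, hz, hzS⟩ : ∃ z ∈ S, ∀ s ∈ S, s ≤ z :=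
    ⟨S.max' hne, S.max'_mem hne, fun s hs => S.le_max' s hs⟩
  -- the second column
  have hcardE : (S.erase a).card = m := by
    rw [Finset.card_erase_of_mem ha, hS, Nat.add_sub_cancel]
  have hneE : (S.erase a).Nonempty := Finset.card_pos.mp (by omega)
  obtain ⟨b, hb, hbS⟩ : ∃ b ∈ S.erase a, ∀ s ∈ S.erase a, b ≤ s :=
    ⟨(S.erase a).min' hneE, (S.erase a).min'_mem hneE, fun s hs => (S.erase a).min'_le s hs⟩
  have hbS' : b ∈ S := Finset.mem_of_mem_erase hb
  have hba : b ≠ a := (Finset.mem_erase.1 hb).1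
  have hab : a < b := lt_of_le_of_ne (haS b hbS') (Ne.symm hba)
  have hbz : b ≤ z := hzS b hbS'
  have haz : a < z := lt_of_lt_of_le hab hbz
  -- the case of one row
  rcases Nat.lt_or_ge 1 m with hm2 | hm2
  swap
  · have hmm : m = 1 := le_antisymm hm2 hm1
    have hR1 : R = {j} := by
      rw [hmm, Finset.card_eq_one] at hR
      obtain ⟨x, hx⟩ := hR
      rw [hx] at hj ⊢
      rw [Finset.mem_singleton.1 hj]
    refine ⟨fun _ => b, ⟨fun i _ => hbS', fun i hi k hk _ => ?_, fun i hi k hk _ => ?_⟩, hba⟩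
    · rw [hR1, Finset.mem_singleton] at hi hk
      rw [hi, hk]
    · rw [hR1, Finset.mem_singleton] at hi hk
      rw [hi, hk]
  -- minima
  have cardE : ∀ s ∈ S, (S.erase s).card = (m - 1) + 1 := by
    intro s hs
    rw [Finset.card_erase_of_mem hs, hS]
    omega
  have cardR : ∀ i ∈ R, (R.erase i).card = m - 1 := by
    intro i hi
    rw [Finset.card_erase_of_mem hi, hR]
  have hlt1 : m - 1 < m := by omega
  obtain ⟨Y, hYi, hYd, hYe⟩ : ∃ Y : α, (∀ k ∈ R, inc k → Y ≤ M k a) ∧
      (∀ k ∈ R, ¬ inc k → Y ≤ M k z) ∧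
      ((∃ i ∈ R, inc i ∧ M i a = Y) ∨ (∃ i ∈ R, ¬ inc i ∧ M i z = Y)) := by
    obtain ⟨i, hi, hmin⟩ := Finset.exists_min_image R (fun k => if inc k then M k a else M k z)
      ⟨j, hj⟩
    refine ⟨if inc i then M i a else M i z, fun k hk hki => ?_, fun k hk hki => ?_, ?_⟩
    · have h3 := hmin k hk
      rwa [if_pos hki] at h3
    · have h3 := hmin k hk
      rwa [if_neg hki] at h3
    · by_cases hii : inc i
      · rw [if_pos hii]
        exact Or.inl ⟨i, hi, hii, rfl⟩
      · rw [if_neg hii]
        exact Or.inr ⟨i, hi, hii, rfl⟩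
  -- increasing rows take the value `Y` only in the column `a`, decreasing rows only in `z`
  have lowI : ∀ k ∈ R, inc k → ∀ s ∈ S, s ≠ a → M k s ≠ Y := by
    intro k hk hki s hs hsa h
    have h3 := h1 k hki (lt_of_le_of_ne (haS s hs) (Ne.symm hsa))
    have h4 := hYi k hk hki
    rw [h] at h3
    exact absurd (lt_of_le_of_lt h4 h3) (lt_irrefl _)
  have lowD : ∀ k ∈ R, ¬ inc k → ∀ s ∈ S, s ≠ z → M k s ≠ Y := by
    intro k hk hki s hs hsz h
    have h3 := h2 k hki (lt_of_le_of_ne (hzS s hs) hsz)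
    have h4 := hYd k hk hki
    rw [h] at h3
    exact absurd (lt_of_le_of_lt h4 h3) (lt_irrefl _)
  by_cases hI' : ∃ i ∈ R, inc i ∧ M i a = Y
  swap
  · -- no increasing row has the minimum
    obtain ⟨i, hi, hii, hiY⟩ : ∃ i ∈ R, ¬ inc i ∧ M i z = Y := by
      rcases hYe with h | h
      · exact absurd h hI'
      · exact h
    have hav : ∀ k ∈ R, ∀ s ∈ S.erase z, M k s ≠ Y := by
      intro k hk s hs h
      rw [Finset.mem_erase] at hs
      by_cases hki : inc k
      · by_cases hsa : s = a
        · exact hI' ⟨k, hk, hki, by rw [← hsa]; exact h⟩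
        · exact lowI k hk hki s hs.2 hsa h
      · exact lowD k hk hki s hs.2 hs.1 h
    by_cases hij : i = j
    · obtain ⟨f, hf⟩ := free_of_Gst (ih _ hlt1) M inc h1 h2 (R.erase i) (S.erase z)
        (cardR i hi) (cardE z hz)
      refine ⟨Function.update f i z, hf.extend hz fun k hk => ?_, ?_⟩
      · rw [hiY]
        exact hav k (Finset.mem_of_mem_erase hk) _ (hf.mem k hk)
      · rw [← hij, Function.update_self]
        exact ne_of_gt haz
    · obtain ⟨f, hf, hfj⟩ := ih _ hlt1 ι C α M inc h1 h2 (R.erase i) (S.erase z)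
        (cardR i hi) (cardE z hz) j (Finset.mem_erase.2 ⟨Ne.symm hij, hj⟩) a
        (Finset.mem_erase.2 ⟨ne_of_lt haz, ha⟩)
        (Or.inl fun s hs => haS s (Finset.mem_of_mem_erase hs))
      refine ⟨Function.update f i z, hf.extend hz fun k hk => ?_, ?_⟩
      · rw [hiY]
        exact hav k (Finset.mem_of_mem_erase hk) _ (hf.mem k hk)
      · rw [Function.update_of_ne (Ne.symm hij)]
        exact hfj
  obtain ⟨i', hi', hii', hiY'⟩ := hI'
  have hij' : i' ≠ j := fun h => hjd (h ▸ hii')
  by_cases hD' : ∃ d ∈ R, ¬ inc d ∧ M d z = Y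
  swap
  · -- no decreasing row has the minimum: the increasing row `i'` takes the column `a`
    obtain ⟨f, hf⟩ := free_of_Gst (ih _ hlt1) M inc h1 h2 (R.erase i') (S.erase a)
      (cardR i' hi') (cardE a ha)
    refine ⟨Function.update f i' a, hf.extend ha fun k hk => ?_, ?_⟩
    · rw [hiY']
      have hfk := hf.mem k hk
      rw [Finset.mem_erase] at hfk
      by_cases hki : inc k
      · exact lowI k (Finset.mem_of_mem_erase hk) hki _ hfk.2 hfk.1
      · by_cases hfz : f k = z
        · intro h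
          exact hD' ⟨k, Finset.mem_of_mem_erase hk, hki, by rw [← hfz]; exact h⟩
        · exact lowD k (Finset.mem_of_mem_erase hk) hki _ hfk.2 hfz
    · rw [Function.update_of_ne (Ne.symm hij')]
      exact (Finset.mem_erase.1 (hf.mem j (Finset.mem_erase.2 ⟨Ne.symm hij', hj⟩))).1
  obtain ⟨d, hd, hdd, hdY⟩ := hD'
  by_cases hD2 : ∃ d' ∈ R, d' ≠ d ∧ ¬ inc d' ∧ M d' z = Y
  swap
  · -- exactly one decreasing row `d` has the minimum: `i'` takes `a`, the row `d` avoids `z`
    have hdi : d ≠ i' := fun h => hdd (h ▸ hii')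
    obtain ⟨f, hf, hfd⟩ := ih _ hlt1 ι C α M inc h1 h2 (R.erase i') (S.erase a)
      (cardR i' hi') (cardE a ha) d (Finset.mem_erase.2 ⟨hdi, hd⟩) z
      (Finset.mem_erase.2 ⟨ne_of_gt haz, hz⟩)
      (Or.inr fun s hs => hzS s (Finset.mem_of_mem_erase hs))
    refine ⟨Function.update f i' a, hf.extend ha fun k hk => ?_, ?_⟩
    · rw [hiY']
      have hfk := hf.mem k hk
      rw [Finset.mem_erase] at hfk
      by_cases hki : inc k
      · exact lowI k (Finset.mem_of_mem_erase hk) hki _ hfk.2 hfk.1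
      · by_cases hfz : f k = z
        · intro h
          by_cases hkd : k = d
          · rw [hkd] at hfz
            exact hfd hfz
          · exact hD2 ⟨k, Finset.mem_of_mem_erase hk, hkd, hki, by rw [← hfz]; exact h⟩
        · exact lowD k (Finset.mem_of_mem_erase hk) hki _ hfk.2 hfz
    · rw [Function.update_of_ne (Ne.symm hij')]
      exact (Finset.mem_erase.1 (hf.mem j (Finset.mem_erase.2 ⟨Ne.symm hij', hj⟩))).1
  obtain ⟨d₂, hd₂, hdd₂, hid₂, hdY₂⟩ := hD2
  -- maxima
  obtain ⟨Z, hZi, hZd, hZj, hZe⟩ : ∃ Z : α, (∀ k ∈ R, inc k → M k z ≤ Z) ∧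
      (∀ k ∈ R, ¬ inc k → k ≠ j → M k a ≤ Z) ∧ M j b ≤ Z ∧
      ((∃ i ∈ R, inc i ∧ M i z = Z) ∨ (∃ i ∈ R, ¬ inc i ∧ i ≠ j ∧ M i a = Z) ∨ M j b = Z) := by
    obtain ⟨i, hi, hmax⟩ := Finset.exists_max_image R
      (fun k => if inc k then M k z else if k = j then M j b else M k a) ⟨j, hj⟩
    refine ⟨if inc i then M i z else if i = j then M j b else M i a,
      fun k hk hki => ?_, fun k hk hki hkj => ?_, ?_, ?_⟩
    · have h3 := hmax k hk
      rwa [if_pos hki] at h3
    · have h3 := hmax k hk
      rwa [if_neg hki, if_neg hkj] at h3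
    · have h3 := hmax j hj
      rwa [if_neg hjd, if_pos rfl] at h3
    · by_cases hii : inc i
      · rw [if_pos hii]
        exact Or.inl ⟨i, hi, hii, rfl⟩
      · rw [if_neg hii]
        by_cases hij : i = j
        · rw [if_pos hij]
          exact Or.inr (Or.inr rfl)
        · rw [if_neg hij]
          exact Or.inr (Or.inl ⟨i, hi, hii, hij, rfl⟩)
  have upI : ∀ k ∈ R, inc k → ∀ s ∈ S, s ≠ z → M k s ≠ Z := by
    intro k hk hki s hs hsz h
    have h3 := h1 k hki (lt_of_le_of_ne (hzS s hs) hsz)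
    have h4 := hZi k hk hki
    rw [h] at h3
    exact absurd (lt_of_lt_of_le h3 h4) (lt_irrefl _)
  have upD : ∀ k ∈ R, ¬ inc k → k ≠ j → ∀ s ∈ S, s ≠ a → M k s ≠ Z := by
    intro k hk hki hkj s hs hsa h
    have h3 := h2 k hki (lt_of_le_of_ne (haS s hs) (Ne.symm hsa))
    have h4 := hZd k hk hki hkj
    rw [h] at h3
    exact absurd (lt_of_lt_of_le h3 h4) (lt_irrefl _)
  have upJ : ∀ s ∈ S, s ≠ a → s ≠ b → M j s ≠ Z := by
    intro s hs hsa hsb h
    have h3 := h2 j hjd (lt_of_le_of_ne (hbS s (Finset.mem_erase.2 ⟨hsa, hs⟩)) (Ne.symm hsb))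
    rw [h] at h3
    exact absurd (lt_of_lt_of_le h3 hZj) (lt_irrefl _)
  -- facts about two columns
  have hSaz : (S.erase a).erase z = (S.erase z).erase a := Finset.erase_right_comm
  by_cases hD : ∃ i ∈ R, ¬ inc i ∧ i ≠ j ∧ M i a = Z
  · -- a decreasing row `e ≠ j` takes `a` with the maximum, another decreasing row takes `z`
    obtain ⟨e, he, hei, hej, heZ⟩ := hD
    obtain ⟨d', hd', hd'e, hd'i, hd'Y⟩ : ∃ d' ∈ R, d' ≠ e ∧ ¬ inc d' ∧ M d' z = Y := by
      by_cases h : d = e
      · exact ⟨d₂, hd₂, by rw [← h]; exact hdd₂, hid₂, hdY₂⟩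
      · exact ⟨d, hd, h, hdd, hdY⟩
    have hd'R : d' ∈ R.erase e := Finset.mem_erase.2 ⟨hd'e, hd'⟩
    have hzS' : z ∈ S.erase a := Finset.mem_erase.2 ⟨ne_of_gt haz, hz⟩
    have hc1 : ((R.erase e).erase d').card = m - 2 := by
      rw [Finset.card_erase_of_mem hd'R, cardR e he]
      omega
    have hc2 : ((S.erase a).erase z).card = (m - 2) + 1 := by
      rw [Finset.card_erase_of_mem hzS', cardE a ha]
      omega
    have key : ∃ f : ι → C, Sol M ((R.erase e).erase d') ((S.erase a).erase z) f ∧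
        (j ∈ (R.erase e).erase d' → f j ≠ b) := by
      by_cases hjd' : j = d'
      · obtain ⟨f, hf⟩ := free_of_Gst (ih (m - 2) (by omega)) M inc h1 h2 _ _ hc1 hc2
        refine ⟨f, hf, fun h => ?_⟩
        rw [hjd'] at h
        exact absurd rfl (Finset.mem_erase.1 h).1
      · have hjR : j ∈ (R.erase e).erase d' :=
          Finset.mem_erase.2 ⟨hjd', Finset.mem_erase.2 ⟨Ne.symm hej, hj⟩⟩
        have hm3 : 1 ≤ m - 2 := by
          rw [← hc1]
          exact Finset.card_pos.mpr ⟨j, hjR⟩
        have hbz' : b ≠ z := by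
          intro h
          have h5 : (S.erase a).erase z = ∅ := by
            rw [Finset.eq_empty_iff_forall_notMem]
            intro s hs
            rw [Finset.mem_erase] at hs
            have h6 := hbS s hs.2
            have h7 := hzS s (Finset.mem_of_mem_erase hs.2)
            rw [h] at h6
            exact hs.1 (le_antisymm h7 h6)
          rw [h5, Finset.card_empty] at hc2
          omega
        obtain ⟨f, hf, hfj⟩ := ih (m - 2) (by omega) ι C α M inc h1 h2 _ _ hc1 hc2 j hjR b
          (Finset.mem_erase.2 ⟨hbz', hb⟩)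
          (Or.inl fun s hs => hbS s (Finset.mem_of_mem_erase hs))
        exact ⟨f, hf, fun _ => hfj⟩
    obtain ⟨f, hf, hfj⟩ := key
    have hstep1 : Sol M (R.erase e) (S.erase a) (Function.update f d' z) := by
      refine hf.extend hzS' fun k hk => ?_
      rw [hd'Y]
      have hkR : k ∈ R := Finset.mem_of_mem_erase (Finset.mem_of_mem_erase hk)
      have hfk := hf.mem k hk
      rw [Finset.mem_erase, Finset.mem_erase] at hfk
      by_cases hki : inc k
      · exact lowI k hkR hki _ hfk.2.2 hfk.2.1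
      · exact lowD k hkR hki _ hfk.2.2 hfk.1
    refine ⟨Function.update (Function.update f d' z) e a, hstep1.extend ha fun k hk => ?_, ?_⟩
    · rw [heZ]
      have hkR : k ∈ R := Finset.mem_of_mem_erase hk
      have hke : k ≠ e := (Finset.mem_erase.1 hk).1
      by_cases hkd : k = d'
      · rw [hkd, Function.update_self, hd'Y]
        intro h
        have h3 := h2 e hei haz
        have h4 := hYd e he hei
        rw [heZ, ← h] at h3
        exact absurd (lt_of_le_of_lt h4 h3) (lt_irrefl _)
      · rw [Function.update_of_ne hkd]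
        have hk2 : k ∈ (R.erase e).erase d' := Finset.mem_erase.2 ⟨hkd, hk⟩
        have hfk := hf.mem k hk2
        rw [Finset.mem_erase, Finset.mem_erase] at hfk
        by_cases hki : inc k
        · exact upI k hkR hki _ hfk.2.2 hfk.1
        · by_cases hkj : k = j
          · rw [hkj] at hfk hk2 ⊢
            exact upJ _ hfk.2.2 hfk.2.1 (hfj hk2)
          · exact upD k hkR hki hkj _ hfk.2.2 hfk.2.1
    · rw [Function.update_of_ne (Ne.symm hej)]
      by_cases hjd' : j = d'
      · rw [hjd', Function.update_self]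
        exact ne_of_gt haz
      · rw [Function.update_of_ne hjd']
        have hjR : j ∈ (R.erase e).erase d' :=
          Finset.mem_erase.2 ⟨hjd', Finset.mem_erase.2 ⟨Ne.symm hej, hj⟩⟩
        have := hf.mem j hjR
        rw [Finset.mem_erase, Finset.mem_erase] at this
        exact this.2.1
  have upD' : ∀ k ∈ R, ¬ inc k → k ≠ j → ∀ s ∈ S, M k s ≠ Z := by
    intro k hk hki hkj s hs h
    by_cases hsa : s = a
    · exact hD ⟨k, hk, hki, hkj, by rw [← hsa]; exact h⟩
    · exact upD k hk hki hkj s hs hsa h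
  by_cases hJ : M j b = Z
  swap
  · -- the row `j` does not have the maximum
    have hJ' : ∀ s ∈ S, s ≠ a → M j s ≠ Z := by
      intro s hs hsa h
      by_cases hsb : s = b
      · exact hJ (by rw [← hsb]; exact h)
      · exact upJ s hs hsa hsb h
    obtain ⟨i, hi, hii, hiZ⟩ : ∃ i ∈ R, inc i ∧ M i z = Z := by
      rcases hZe with h | h | h
      · exact h
      · exact absurd h hD
      · exact absurd h hJ
    have hij : i ≠ j := fun h => hjd (h ▸ hii)
    obtain ⟨f, hf, hfj⟩ := ih _ hlt1 ι C α M inc h1 h2 (R.erase i) (S.erase z)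
      (cardR i hi) (cardE z hz) j (Finset.mem_erase.2 ⟨Ne.symm hij, hj⟩) a
      (Finset.mem_erase.2 ⟨ne_of_lt haz, ha⟩)
      (Or.inl fun s hs => haS s (Finset.mem_of_mem_erase hs))
    refine ⟨Function.update f i z, hf.extend hz fun k hk => ?_, ?_⟩
    · rw [hiZ]
      have hkR : k ∈ R := Finset.mem_of_mem_erase hk
      have hfk := hf.mem k hk
      rw [Finset.mem_erase] at hfk
      by_cases hki : inc k
      · exact upI k hkR hki _ hfk.2 hfk.1
      · by_cases hkj : k = j
        · rw [hkj] at hfk ⊢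
          exact hJ' _ hfk.2 hfj
        · exact upD' k hkR hki hkj _ hfk.2
    · rw [Function.update_of_ne (Ne.symm hij)]
      exact hfj
  by_cases hI : ∃ i ∈ R, inc i ∧ M i z = Z
  swap
  · -- only the row `j` has the maximum: it takes the column `b`
    obtain ⟨f, hf⟩ := free_of_Gst (ih _ hlt1) M inc h1 h2 (R.erase j) (S.erase b)
      (cardR j hj) (cardE b hbS')
    refine ⟨Function.update f j b, hf.extend hbS' fun k hk => ?_, ?_⟩
    · rw [hJ]
      have hkR : k ∈ R := Finset.mem_of_mem_erase hk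
      have hfk := hf.mem k hk
      rw [Finset.mem_erase] at hfk
      by_cases hki : inc k
      · by_cases hfz : f k = z
        · intro h
          exact hI ⟨k, hkR, hki, by rw [← hfz]; exact h⟩
        · exact upI k hkR hki _ hfk.2 hfz
      · exact upD' k hkR hki (Finset.mem_erase.1 hk).1 _ hfk.2
    · rw [Function.update_self]
      exact hba
  obtain ⟨i, hi, hii, hiZ⟩ := hI
  have hij : i ≠ j := fun h => hjd (h ▸ hii)
  by_cases hI2 : ∃ i₂ ∈ R, i₂ ≠ i ∧ inc i₂ ∧ M i₂ z = Z
  swap
  · -- exactly one increasing row `i` has the maximum: `j` takes `b`, the row `i` avoids `z`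
    have hbz' : b ≠ z := by
      intro h
      have h5 : (S.erase a).card ≤ 1 := by
        rw [Finset.card_le_one]
        intro s hs t ht
        have h6 := hbS s hs
        have h7 := hzS s (Finset.mem_of_mem_erase hs)
        have h8 := hbS t ht
        have h9 := hzS t (Finset.mem_of_mem_erase ht)
        rw [h] at h6 h8
        rw [le_antisymm h7 h6, le_antisymm h9 h8]
      omega
    obtain ⟨f, hf, hfi⟩ := ih _ hlt1 ι C α M inc h1 h2 (R.erase j) (S.erase b)
      (cardR j hj) (cardE b hbS') i (Finset.mem_erase.2 ⟨hij, hi⟩) z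
      (Finset.mem_erase.2 ⟨Ne.symm hbz', hz⟩)
      (Or.inr fun s hs => hzS s (Finset.mem_of_mem_erase hs))
    refine ⟨Function.update f j b, hf.extend hbS' fun k hk => ?_, ?_⟩
    · rw [hJ]
      have hkR : k ∈ R := Finset.mem_of_mem_erase hk
      have hfk := hf.mem k hk
      rw [Finset.mem_erase] at hfk
      by_cases hki : inc k
      · by_cases hfz : f k = z
        · intro h
          by_cases hkii : k = i
          · rw [hkii] at hfz
            exact hfi hfz
          · exact hI2 ⟨k, hkR, hkii, hki, by rw [← hfz]; exact h⟩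
        · exact upI k hkR hki _ hfk.2 hfz
      · exact upD' k hkR hki (Finset.mem_erase.1 hk).1 _ hfk.2
    · rw [Function.update_self]
      exact hba
  -- two increasing rows have the maximum: one takes `z`, the row `i'` takes `a`
  obtain ⟨i₂, hi₂, hi₂i, hii₂, hiZ₂⟩ := hI2
  obtain ⟨e, he, hei', hei, heZ⟩ : ∃ e ∈ R, e ≠ i' ∧ inc e ∧ M e z = Z := by
    by_cases h : i = i'
    · exact ⟨i₂, hi₂, by rw [← h]; exact hi₂i, hii₂, hiZ₂⟩
    · exact ⟨i, hi, h, hii, hiZ⟩
  have hej : e ≠ j := fun h => hjd (h ▸ hei)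
  have heR : e ∈ R.erase i' := Finset.mem_erase.2 ⟨hei', he⟩
  have hzS' : z ∈ S.erase a := Finset.mem_erase.2 ⟨ne_of_gt haz, hz⟩
  have hc1 : ((R.erase i').erase e).card = m - 2 := by
    rw [Finset.card_erase_of_mem heR, cardR i' hi']
    omega
  have hc2 : ((S.erase a).erase z).card = (m - 2) + 1 := by
    rw [Finset.card_erase_of_mem hzS', cardE a ha]
    omega
  have hjR : j ∈ (R.erase i').erase e :=
    Finset.mem_erase.2 ⟨Ne.symm hej, Finset.mem_erase.2 ⟨Ne.symm hij', hj⟩⟩
  have hm3 : 1 ≤ m - 2 := by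
    rw [← hc1]
    exact Finset.card_pos.mpr ⟨j, hjR⟩
  have hbz' : b ≠ z := by
    intro h
    have h5 : (S.erase a).erase z = ∅ := by
      rw [Finset.eq_empty_iff_forall_notMem]
      intro s hs
      rw [Finset.mem_erase] at hs
      have h6 := hbS s hs.2
      have h7 := hzS s (Finset.mem_of_mem_erase hs.2)
      rw [h] at h6
      exact hs.1 (le_antisymm h7 h6)
    rw [h5, Finset.card_empty] at hc2
    omega
  obtain ⟨f, hf, hfj⟩ := ih (m - 2) (by omega) ι C α M inc h1 h2 _ _ hc1 hc2 j hjR b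
    (Finset.mem_erase.2 ⟨hbz', hb⟩)
    (Or.inl fun s hs => hbS s (Finset.mem_of_mem_erase hs))
  have hstep1 : Sol M (R.erase i') (S.erase a) (Function.update f e z) := by
    refine hf.extend hzS' fun k hk => ?_
    rw [heZ]
    have hkR : k ∈ R := Finset.mem_of_mem_erase (Finset.mem_of_mem_erase hk)
    have hfk := hf.mem k hk
    rw [Finset.mem_erase, Finset.mem_erase] at hfk
    by_cases hki : inc k
    · exact upI k hkR hki _ hfk.2.2 hfk.1
    · by_cases hkj : k = j
      · rw [hkj] at hfk ⊢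
        exact upJ _ hfk.2.2 hfk.2.1 hfj
      · exact upD' k hkR hki hkj _ hfk.2.2
  refine ⟨Function.update (Function.update f e z) i' a, hstep1.extend ha fun k hk => ?_, ?_⟩
  · rw [hiY']
    have hkR : k ∈ R := Finset.mem_of_mem_erase hk
    by_cases hke : k = e
    · rw [hke, Function.update_self]
      exact lowI e he hei z hz (ne_of_gt haz)
    · rw [Function.update_of_ne hke]
      have hk2 : k ∈ (R.erase i').erase e := Finset.mem_erase.2 ⟨hke, hk⟩
      have hfk := hf.mem k hk2
      rw [Finset.mem_erase, Finset.mem_erase] at hfk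
      by_cases hki : inc k
      · exact lowI k hkR hki _ hfk.2.2 hfk.2.1
      · exact lowD k hkR hki _ hfk.2.2 hfk.1
  · rw [Function.update_of_ne (Ne.symm hij'), Function.update_of_ne (Ne.symm hej)]
    have := hf.mem j hjR
    rw [Finset.mem_erase, Finset.mem_erase] at this
    exact this.2.1

theorem gst (m : ℕ) : Gst.{u} m := by
  induction m using Nat.strong_induction_on with
  | _ m ih =>
    intro ι C α _ _ M inc h1 h2 R S hR hS j hj c hc hext
    rcases hext with hext | hext
    · by_cases hjd : inc j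
      · -- reverse the order of the symbols
        obtain ⟨f, hf, hfj⟩ := @step m ih ι C αᵒᵈ inferInstance inferInstance
          (fun i s => OrderDual.toDual (M i s)) (fun i => ¬ inc i)
          (fun i hi => strictMono_toDual_comp_iff.2 (h2 i hi))
          (fun i hi => strictAnti_toDual_comp_iff.2 (h1 i (not_not.mp hi))) R S hR hS j hj
          (fun h => h hjd) c hc hext
        exact ⟨f, ⟨hf.mem, hf.inj, hf.val⟩, hfj⟩
      · exact step ih M inc h1 h2 R S hR hS j hj hjd c hc hext
    · by_cases hjd : inc j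
      · -- reverse the order of the columns
        obtain ⟨f, hf, hfj⟩ := @step m ih ι Cᵒᵈ α inferInstance inferInstance
          (fun i s => M i (OrderDual.ofDual s)) (fun i => ¬ inc i)
          (fun i hi => strictMono_comp_ofDual_iff.2 (h2 i hi))
          (fun i hi => strictAnti_comp_ofDual_iff.2 (h1 i (not_not.mp hi))) R S hR hS j hj
          (fun h => h hjd) c hc (fun s hs => hext s hs)
        exact ⟨f, ⟨hf.mem, hf.inj, hf.val⟩, hfj⟩
      · -- reverse both orders
        obtain ⟨f, hf, hfj⟩ := @step m ih ι Cᵒᵈ αᵒᵈ inferInstance inferInstance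
          (fun i s => OrderDual.toDual (M i (OrderDual.ofDual s))) inc
          (fun i hi => strictMono_toDual_comp_iff.2 (strictAnti_comp_ofDual_iff.2 (h1 i hi)))
          (fun i hi => strictAnti_toDual_comp_iff.2 (strictMono_comp_ofDual_iff.2 (h2 i hi)))
          R S hR hS j hj hjd c hc (fun s hs => hext s hs)
        exact ⟨f, ⟨hf.mem, hf.inj, hf.val⟩, hfj⟩

/-- Every matrix with fewer rows than columns whose rows are strictly monotone has a
transversal. -/
theorem mono_rows {ι C : Type} {α : Type u} [Fintype ι] [Fintype C] [LinearOrder C]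
    [LinearOrder α]
    (M : ι → C → α) (hM : ∀ i, StrictMono (M i) ∨ StrictAnti (M i))
    (hc : Fintype.card ι < Fintype.card C) :
    ∃ f : ι → C, Function.Injective f ∧ Function.Injective fun i => M i (f i) := by
  classical
  obtain ⟨S, -, hS⟩ := Finset.exists_subset_card_eq (s := (Finset.univ : Finset C))
    (n := Fintype.card ι + 1) (by rw [Finset.card_univ]; omega)
  obtain ⟨f, hf⟩ := free_of_Gst (gst (Fintype.card ι)) M (fun i => StrictMono (M i))
    (fun i hi => hi) (fun i hi => (hM i).resolve_left hi) Finset.univ S Finset.card_univ hS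
  exact ⟨f, fun i k h => hf.inj i (Finset.mem_univ _) k (Finset.mem_univ _) h,
    fun i k h => hf.val i (Finset.mem_univ _) k (Finset.mem_univ _) h⟩

end Pool.Agent.H40.ST2
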