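import Mathlib

/-!
# Transversals of nearly constant row-latin matrices (`MP_3d056f_co`)

`t` arbitrary rows, all other rows (essentially) equal to `β`, `(t + 1)² < 4 n`.
-/

set_option autoImplicit false

namespace Pool.Agent.H40.ST2

universe u

section core

variable {ε X : Type} {α : Type u} [DecidableEq ε]

/-- A closed system: the rows `K` are placed at the columns `f`, and the symbols they use occur in
the reference row `β` only in these columns. -/
structure Closed (β : X → α) (N : ε → X → α) (K : Finset ε) (f : ε → X) : Prop where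
  inj : ∀ i ∈ K, ∀ k ∈ K, f i = f k → i = k
  hinj : ∀ i ∈ K, ∀ k ∈ K, N i (f i) = N k (f k) → i = k
  cl : ∀ x, ∀ i ∈ K, β x = N i (f i) → ∃ k ∈ K, f k = x

/-- A trajectory of the unused rows `c 0, c 1, …, c (j - 1)` which ends in `p j`. -/
structure Traj (β : X → α) (N : ε → X → α) (K : Finset ε) (f : ε → X) (c : ℕ → ε) (j : ℕ)
    (p : ℕ → X) : Prop where
  av : ∀ i ≤ j, ∀ e ∈ K, f e ≠ p i
  inj : ∀ i ≤ j, ∀ k ≤ j, p i = p k → i = k
  arc : ∀ i < j, N (c i) (p i) = β (p (i + 1))

/-- the placement of the rows of `K` and of the unused rows -/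
def plc (K : Finset ε) (f : ε → X) (idx : ε → ℕ) (p : ℕ → X) (e : ε) : X :=
  if e ∈ K then f e else p (idx e)

/-- A piece `c a, …, c j` of a trajectory which closes up gives a larger closed system. -/
theorem Traj.close {β : X → α} (hβ : Function.Injective β) {N : ε → X → α} {K : Finset ε}
    {f : ε → X} {c : ℕ → ε} {idx : ε → ℕ} {r j a : ℕ} {p : ℕ → X} (hK : Closed β N K f)
    (hcK : ∀ i < r, c i ∉ K) (hidx : ∀ i < r, idx (c i) = i) (hj : j < r) (haj : a ≤ j)
    (hT : Traj β N K f c j p) (hy : ∀ e ∈ K, N e (f e) ≠ N (c j) (p j))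
    (hx : ∀ x, β x = N (c j) (p j) → (∃ e ∈ K, f e = x) ∨ ∃ i, a ≤ i ∧ i ≤ j ∧ p i = x)
    (hyn : ∀ i, a ≤ i → i < j → β (p (i + 1)) ≠ N (c j) (p j)) :
    ∃ (K' : Finset ε) (f' : ε → X), Closed β N K' f' ∧ K.card < K'.card := by
  have hf1 : ∀ e ∈ K, plc K f idx p e = f e := fun e he => if_pos he
  have hf2 : ∀ i < r, plc K f idx p (c i) = p i := fun i hi => by
    unfold plc
    rw [if_neg (hcK i hi), hidx i hi]
  have hmem : ∀ e, e ∈ K ∪ (Finset.Icc a j).image c ↔ e ∈ K ∨ ∃ i, a ≤ i ∧ i ≤ j ∧ e = c i := by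
    intro e
    rw [Finset.mem_union, Finset.mem_image]
    constructor
    · rintro (h | ⟨i, hi, rfl⟩)
      · exact Or.inl h
      · rw [Finset.mem_Icc] at hi
        exact Or.inr ⟨i, hi.1, hi.2, rfl⟩
    · rintro (h | ⟨i, h1, h2, rfl⟩)
      · exact Or.inl h
      · exact Or.inr ⟨i, Finset.mem_Icc.2 ⟨h1, h2⟩, rfl⟩
  refine ⟨K ∪ (Finset.Icc a j).image c, plc K f idx p, ⟨?_, ?_, ?_⟩, ?_⟩
  · intro e he e' he' h
    rw [hmem] at he he'
    rcases he with he | ⟨i, hi1, hi2, rfl⟩
    · rcases he' with he' | ⟨k, hk1, hk2, rfl⟩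
      · rw [hf1 e he, hf1 e' he'] at h
        exact hK.inj e he e' he' h
      · rw [hf1 e he, hf2 k (by omega)] at h
        exact absurd h (hT.av k hk2 e he)
    · rcases he' with he' | ⟨k, hk1, hk2, rfl⟩
      · rw [hf1 e' he', hf2 i (by omega)] at h
        exact absurd h.symm (hT.av i hi2 e' he')
      · rw [hf2 i (by omega), hf2 k (by omega)] at h
        rw [hT.inj i hi2 k hk2 h]
  · -- the heads are distinct
    have hKc : ∀ e ∈ K, ∀ i, a ≤ i → i ≤ j → N e (f e) ≠ N (c i) (p i) := by
      intro e he i hi1 hi2 h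
      rcases Nat.lt_or_ge i j with hij | hij
      · rw [hT.arc i hij] at h
        obtain ⟨e', he', hfe⟩ := hK.cl (p (i + 1)) e he h.symm
        exact hT.av (i + 1) (by omega) e' he' hfe
      · have : i = j := le_antisymm hi2 hij
        rw [this] at h
        exact hy e he h
    intro e he e' he' h
    rw [hmem] at he he'
    rcases he with he | ⟨i, hi1, hi2, rfl⟩
    · rcases he' with he' | ⟨k, hk1, hk2, rfl⟩
      · rw [hf1 e he, hf1 e' he'] at h
        exact hK.hinj e he e' he' h
      · rw [hf1 e he, hf2 k (by omega)] at h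
        exact absurd h (hKc e he k hk1 hk2)
    · rcases he' with he' | ⟨k, hk1, hk2, rfl⟩
      · rw [hf1 e' he', hf2 i (by omega)] at h
        exact absurd h.symm (hKc e' he' i hi1 hi2)
      · rw [hf2 i (by omega), hf2 k (by omega)] at h
        rcases Nat.lt_or_ge i j with hij | hij
        · rcases Nat.lt_or_ge k j with hkj | hkj
          · rw [hT.arc i hij, hT.arc k hkj] at h
            have h3 := hT.inj (i + 1) (by omega) (k + 1) (by omega) (hβ h)
            have h4 : i = k := by omega
            rw [h4]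
          · have hk : k = j := le_antisymm hk2 hkj
            rw [hk, hT.arc i hij] at h
            exact absurd h (hyn i hi1 hij)
        · have hi : i = j := le_antisymm hi2 hij
          rcases Nat.lt_or_ge k j with hkj | hkj
          · rw [hi, hT.arc k hkj] at h
            exact absurd h.symm (hyn k hk1 hkj)
          · rw [hi, le_antisymm hk2 hkj]
  · -- closed
    intro x e he hxe
    rw [hmem] at he
    rcases he with he | ⟨i, hi1, hi2, rfl⟩
    · rw [hf1 e he] at hxe
      obtain ⟨k, hk, hkx⟩ := hK.cl x e he hxe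
      exact ⟨k, (hmem k).2 (Or.inl hk), by rw [hf1 k hk, hkx]⟩
    · rw [hf2 i (by omega)] at hxe
      rcases Nat.lt_or_ge i j with hij | hij
      · rw [hT.arc i hij] at hxe
        exact ⟨c (i + 1), (hmem _).2 (Or.inr ⟨i + 1, by omega, by omega, rfl⟩), by
          rw [hf2 (i + 1) (by omega)]
          exact (hβ hxe).symm⟩
      · have hi : i = j := le_antisymm hi2 hij
        rw [hi] at hxe
        rcases hx x hxe with ⟨k, hk, hkx⟩ | ⟨k, hk1, hk2, hkx⟩
        · exact ⟨k, (hmem k).2 (Or.inl hk), by rw [hf1 k hk, hkx]⟩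
        · exact ⟨c k, (hmem _).2 (Or.inr ⟨k, hk1, hk2, rfl⟩), by
            rw [hf2 k (by omega), hkx]⟩
  · refine Finset.card_lt_card ((Finset.ssubset_iff_of_subset Finset.subset_union_left).2
      ⟨c j, (hmem _).2 (Or.inr ⟨j, haj, le_rfl, rfl⟩), hcK j hj⟩)

/-- With a maximal closed system every trajectory whose next symbol is not used by the system can
be continued. -/
theorem Traj.next {β : X → α} (hβ : Function.Injective β) {N : ε → X → α} {K : Finset ε}
    {f : ε → X} {c : ℕ → ε} {idx : ε → ℕ} {r j : ℕ} {p : ℕ → X} (hK : Closed β N K f)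
    (hmax : ∀ (K' : Finset ε) (f' : ε → X), Closed β N K' f' → K'.card ≤ K.card)
    (hcK : ∀ i < r, c i ∉ K) (hidx : ∀ i < r, idx (c i) = i) (hj : j < r)
    (hT : Traj β N K f c j p) (hy : ∀ e ∈ K, N e (f e) ≠ N (c j) (p j)) :
    ∃ x, β x = N (c j) (p j) ∧ (∀ e ∈ K, f e ≠ x) ∧ ∀ i ≤ j, p i ≠ x := by
  by_contra hcon
  push Not at hcon
  have hno : ∀ (a : ℕ), a ≤ j →
      (∀ x, β x = N (c j) (p j) → (∃ e ∈ K, f e = x) ∨ ∃ i, a ≤ i ∧ i ≤ j ∧ p i = x) →
      (∀ i, a ≤ i → i < j → β (p (i + 1)) ≠ N (c j) (p j)) → False := by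
    intro a haj h1 h2
    obtain ⟨K', f', hK', hlt⟩ := Traj.close hβ hK hcK hidx hj haj hT hy h1 h2
    exact absurd (hmax K' f' hK') (not_le.2 hlt)
  by_cases h1 : ∃ i ≤ j, β (p i) = N (c j) (p j)
  · obtain ⟨i, hij, hi⟩ := h1
    refine hno i hij (fun x hx => Or.inr ⟨i, le_rfl, hij, hβ (hi.trans hx.symm)⟩) ?_
    intro k hk1 hk2 h
    have h3 := hT.inj i hij (k + 1) (by omega) (hβ (hi.trans h.symm))
    omega
  · push Not at h1
    refine hno 0 (Nat.zero_le _) (fun x hx => ?_) (fun i _ hi => h1 (i + 1) (by omega))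
    by_cases h2 : ∃ e ∈ K, f e = x
    · exact Or.inl h2
    · push Not at h2
      obtain ⟨i, hij, hpi⟩ := hcon x hx h2
      exact absurd (by rw [hpi]; exact hx) (h1 i hij)

/-- The `t` exceptional rows can be placed such that they block at most `t + 1` columns. -/
theorem core [Fintype ε] [Fintype X] (β : X → α) (hβ : Function.Injective β) (N : ε → X → α)
    (hN : ∀ i, Function.Injective (N i))
    (hc : (Fintype.card ε + 1) ^ 2 < 4 * Fintype.card X) :
    ∃ (g : ε → X) (B : Finset X), Function.Injective g ∧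
      (Function.Injective fun i => N i (g i)) ∧ B.card ≤ Fintype.card ε + 1 ∧
      (∀ i, g i ∈ B) ∧ ∀ x i, β x = N i (g i) → x ∈ B := by
  classical
  have hn : 0 < Fintype.card X := by
    have h1 : 0 < (Fintype.card ε + 1) ^ 2 := by positivity
    omega
  obtain ⟨x₀⟩ : Nonempty X := Fintype.card_pos_iff.mp hn
  -- a maximal closed system
  obtain ⟨K, f, hK, hmax⟩ : ∃ (K : Finset ε) (f : ε → X), Closed β N K f ∧
      ∀ (K' : Finset ε) (f' : ε → X), Closed β N K' f' → K'.card ≤ K.card := by
    have h0 : ∃ m, ∃ (K : Finset ε) (f : ε → X), Closed β N K f ∧ K.card = m :=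
      ⟨0, ∅, fun _ => x₀, ⟨fun i hi => absurd hi (Finset.notMem_empty _),
        fun i hi => absurd hi (Finset.notMem_empty _),
        fun x i hi => absurd hi (Finset.notMem_empty _)⟩, Finset.card_empty⟩
    have hb : ∀ m, (∃ (K : Finset ε) (f : ε → X), Closed β N K f ∧ K.card = m) →
        m ≤ Fintype.card ε := by
      rintro m ⟨K, f, -, rfl⟩
      exact Finset.card_le_univ K
    obtain ⟨K, f, hK, hKm⟩ := Nat.findGreatest_spec (P := fun m => ∃ (K : Finset ε) (f : ε → X),
      Closed β N K f ∧ K.card = m) (Nat.zero_le (Fintype.card ε))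
      ⟨∅, fun _ => x₀, ⟨fun i hi => absurd hi (Finset.notMem_empty _),
        fun i hi => absurd hi (Finset.notMem_empty _),
        fun x i hi => absurd hi (Finset.notMem_empty _)⟩, Finset.card_empty⟩
    refine ⟨K, f, hK, fun K' f' hK' => ?_⟩
    rw [hKm]
    exact Nat.le_findGreatest (Finset.card_le_univ K') ⟨K', f', hK', rfl⟩
  obtain ⟨r, hr⟩ : ∃ r, r = Fintype.card {i // i ∉ K} := ⟨_, rfl⟩
  have hrt : K.card + r = Fintype.card ε := by
    rw [hr, Fintype.card_subtype_compl, Fintype.card_coe]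
    have := Finset.card_le_univ K
    omega
  rcases Nat.eq_zero_or_pos r with hr0 | hrpos
  · -- all rows are placed
    have hall : ∀ i, i ∈ K := by
      intro i
      by_contra hi
      have h1 : Fintype.card {i // i ∉ K} = 0 := by rw [← hr, hr0]
      exact (Fintype.card_eq_zero_iff.mp h1).false ⟨i, hi⟩
    refine ⟨f, Finset.univ.image f, fun i k h => hK.inj i (hall i) k (hall k) h,
      fun i k h => hK.hinj i (hall i) k (hall k) h, ?_,
      fun i => Finset.mem_image_of_mem f (Finset.mem_univ i), fun x i h => ?_⟩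
    · exact le_trans Finset.card_image_le (by rw [Finset.card_univ]; omega)
    · obtain ⟨k, -, hk⟩ := hK.cl x i (hall i) h
      rw [← hk]
      exact Finset.mem_image_of_mem f (Finset.mem_univ k)
  -- enumeration of the unused rows
  obtain ⟨c, idx, hcK, hidx, hcx, hidr⟩ : ∃ (c : ℕ → ε) (idx : ε → ℕ), (∀ i < r, c i ∉ K) ∧
      (∀ i < r, idx (c i) = i) ∧ (∀ e, e ∉ K → c (idx e) = e) ∧ ∀ e, e ∉ K → idx e < r := by
    obtain ⟨E⟩ : Nonempty ({i // i ∉ K} ≃ Fin r) := by
      rw [← Fintype.card_eq, Fintype.card_fin, hr]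
    refine ⟨fun i => (E.symm ⟨i % r, Nat.mod_lt _ hrpos⟩).1,
      fun e => if h : e ∉ K then (E ⟨e, h⟩).1 else 0, fun i _ => ?_, fun i hi => ?_,
      fun e he => ?_, fun e he => ?_⟩
    · exact (E.symm ⟨i % r, Nat.mod_lt _ hrpos⟩).2
    · have h1 : (⟨i % r, Nat.mod_lt _ hrpos⟩ : Fin r) = ⟨i, hi⟩ :=
        Fin.ext (Nat.mod_eq_of_lt hi)
      simp only [h1]
      rw [dif_pos (E.symm ⟨i, hi⟩).2]
      have h2 : (⟨(E.symm ⟨i, hi⟩).1, (E.symm ⟨i, hi⟩).2⟩ : {i // i ∉ K}) = E.symm ⟨i, hi⟩ :=
        rfl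
      rw [h2, Equiv.apply_symm_apply]
    · simp only [dif_pos he]
      have h1 : (⟨(E ⟨e, he⟩).1 % r, Nat.mod_lt _ hrpos⟩ : Fin r) = E ⟨e, he⟩ :=
        Fin.ext (Nat.mod_eq_of_lt (E ⟨e, he⟩).2)
      rw [h1, Equiv.symm_apply_apply]
    · simp only [dif_pos he]
      exact (E ⟨e, he⟩).2
  -- heads of the closed system
  obtain ⟨Hd, hHd⟩ : ∃ Hd : Finset α, Hd = K.image fun e => N e (f e) := ⟨_, rfl⟩
  have hHdc : Hd.card ≤ K.card := by
    rw [hHd]
    exact Finset.card_image_le
  have hHdm : ∀ y, y ∉ Hd → ∀ e ∈ K, N e (f e) ≠ y := by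
    intro y hy e he h
    apply hy
    rw [hHd, ← h]
    exact Finset.mem_image_of_mem (fun e => N e (f e)) he
  -- the end points of the trajectories
  obtain ⟨S, hS⟩ : ∃ S : ℕ → Finset X,
      ∀ j, S j = Finset.univ.filter fun x => ∃ p, Traj β N K f c j p ∧ p j = x := ⟨_, fun _ => rfl⟩
  have hSm : ∀ j x, x ∈ S j ↔ ∃ p, Traj β N K f c j p ∧ p j = x := by
    intro j x
    rw [hS, Finset.mem_filter]
    exact ⟨fun h => h.2, fun h => ⟨Finset.mem_univ _, h⟩⟩
  have hloss : ∀ j, (S j).card ≤
      ((S j).filter fun q => N (c j) q ∉ Hd).card + K.card := by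
    intro j
    have h1 := Finset.card_filter_add_card_filter_not (s := S j) (fun q => N (c j) q ∉ Hd)
    have h2 : ((S j).filter fun q => ¬ (N (c j) q ∉ Hd)).card ≤ Hd.card := by
      refine Finset.card_le_card_of_injOn (N (c j)) ?_ ?_
      · intro q hq
        have h3 := (Finset.mem_filter.1 (Finset.mem_coe.1 hq)).2
        exact Finset.mem_coe.2 (not_not.mp h3)
      · intro q _ q' _ h
        exact hN (c j) h
    omega
  have hstep : ∀ j < r, ((S j).filter fun q => N (c j) q ∉ Hd).card ≤ (S (j + 1)).card := by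
    intro j hj
    have hex : ∀ q ∈ (S j).filter (fun q => N (c j) q ∉ Hd),
        ∃ x, x ∈ S (j + 1) ∧ β x = N (c j) q := by
      intro q hq
      rw [Finset.mem_filter, hSm] at hq
      obtain ⟨⟨p, hT, hpq⟩, hqH⟩ := hq
      rw [← hpq] at hqH ⊢
      obtain ⟨x, hx1, hx2, hx3⟩ := hT.next hβ hK hmax hcK hidx hj (hHdm _ hqH)
      refine ⟨x, (hSm _ _).2 ⟨Function.update p (j + 1) x, ⟨fun i hi e he => ?_,
        fun i hi k hk h => ?_, fun i hi => ?_⟩, Function.update_self _ _ _⟩, hx1⟩
      · by_cases hij : i = j + 1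
        · rw [hij, Function.update_self]
          exact hx2 e he
        · rw [Function.update_of_ne hij]
          exact hT.av i (by omega) e he
      · by_cases hij : i = j + 1
        · by_cases hkj : k = j + 1
          · rw [hij, hkj]
          · rw [hij, Function.update_self, Function.update_of_ne hkj] at h
            exact absurd h.symm (hx3 k (by omega))
        · by_cases hkj : k = j + 1
          · rw [hkj, Function.update_self, Function.update_of_ne hij] at h
            exact absurd h (hx3 i (by omega))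
          · rw [Function.update_of_ne hij, Function.update_of_ne hkj] at h
            exact hT.inj i (by omega) k (by omega) h
      · rw [Function.update_of_ne (by omega : i ≠ j + 1)]
        by_cases hij : i = j
        · rw [hij, Function.update_self]
          exact hx1.symm
        · rw [Function.update_of_ne (by omega : i + 1 ≠ j + 1)]
          exact hT.arc i (by omega)
    choose! φ hφ1 hφ2 using hex
    refine Finset.card_le_card_of_injOn φ (fun q hq => hφ1 q hq) ?_
    intro q hq q' hq' h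
    have h3 := hφ2 q hq
    rw [h, hφ2 q' hq'] at h3
    exact (hN (c j) h3).symm
  have hS0 : Fintype.card X ≤ (S 0).card + K.card := by
    have h1 : (Finset.univ : Finset X) ⊆ S 0 ∪ K.image f := by
      intro x _
      rw [Finset.mem_union, hSm]
      by_cases hx : x ∈ K.image f
      · exact Or.inr hx
      · left
        refine ⟨fun _ => x, ⟨fun i _ e he h => ?_, fun i hi k hk _ => by omega,
          fun i hi => absurd hi (Nat.not_lt_zero _)⟩, rfl⟩
        apply hx
        rw [← h]
        exact Finset.mem_image_of_mem f he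
    have h2 := Finset.card_le_card h1
    have h3 := Finset.card_union_le (S 0) (K.image f)
    have h4 : (K.image f).card ≤ K.card := Finset.card_image_le
    rw [Finset.card_univ] at h2
    omega
  have hSj : ∀ j < r, Fintype.card X ≤ (S j).card + (j + 1) * K.card := by
    intro j
    induction j with
    | zero =>
      intro _
      rw [zero_add, one_mul]
      exact hS0
    | succ j ih =>
      intro hj
      have h1 := ih (by omega)
      have h2 := hloss j
      have h3 := hstep j (by omega)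
      have h4 : (j + 1 + 1) * K.card = (j + 1) * K.card + K.card := by ring
      omega
  obtain ⟨l, hl⟩ : ∃ l, r = l + 1 := ⟨r - 1, by omega⟩
  have hlr : l < r := by omega
  obtain ⟨q, hq⟩ : ((S l).filter fun q => N (c l) q ∉ Hd).Nonempty := by
    rw [← Finset.card_pos]
    have h1 := hSj l hlr
    have h2 := hloss l
    have h3 : 4 * ((l + 2) * K.card) ≤ (Fintype.card ε + 1) ^ 2 := by
      have h4 : Fintype.card ε + 1 = (l + 2) + K.card := by omega
      rw [h4]
      have h5 : ((l : ℤ) + 2 - K.card) ^ 2 ≥ 0 := sq_nonneg _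
      zify
      nlinarith
    have h6 : (l + 2) * K.card = (l + 1) * K.card + K.card := by ring
    omega
  rw [Finset.mem_filter, hSm] at hq
  obtain ⟨⟨p, hT, hpq⟩, hqH⟩ := hq
  rw [← hpq] at hqH
  obtain ⟨x₁, hx1, hx2, hx3⟩ := hT.next hβ hK hmax hcK hidx hlr (hHdm _ hqH)
  have hf1 : ∀ e ∈ K, plc K f idx p e = f e := fun e he => if_pos he
  have hf2 : ∀ e, e ∉ K → plc K f idx p e = p (idx e) := fun e he => if_neg he
  have hidl : ∀ e, e ∉ K → idx e ≤ l := fun e he => by
    have := hidr e he
    omega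
  have hidinj : ∀ e, e ∉ K → ∀ e', e' ∉ K → idx e = idx e' → e = e' := by
    intro e he e' he' h
    rw [← hcx e he, ← hcx e' he', h]
  -- the heads of the unused rows
  have hhead : ∀ e, e ∉ K → ∃ x, β x = N e (p (idx e)) ∧ (∀ k ∈ K, f k ≠ x) ∧
      ((idx e = l ∧ x = x₁) ∨ (idx e < l ∧ x = p (idx e + 1))) := by
    intro e he
    rcases Nat.lt_or_ge (idx e) l with h | h
    · refine ⟨p (idx e + 1), ?_, fun k hk => hT.av _ (by omega) k hk, Or.inr ⟨h, rfl⟩⟩
      have h3 := hT.arc (idx e) h
      rw [hcx e he] at h3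
      exact h3.symm
    · have h3 : idx e = l := le_antisymm (hidl e he) h
      refine ⟨x₁, ?_, hx2, Or.inl ⟨h3, rfl⟩⟩
      rw [hx1]
      have h4 := hcx e he
      rw [h3] at h4
      rw [h4, h3]
  refine ⟨plc K f idx p, insert x₁ (Finset.univ.image (plc K f idx p)), ?_, ?_, ?_, ?_, ?_⟩
  · intro e e' h
    by_cases he : e ∈ K
    · by_cases he' : e' ∈ K
      · rw [hf1 e he, hf1 e' he'] at h
        exact hK.inj e he e' he' h
      · rw [hf1 e he, hf2 e' he'] at h
        exact absurd h (hT.av _ (hidl e' he') e he)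
    · by_cases he' : e' ∈ K
      · rw [hf2 e he, hf1 e' he'] at h
        exact absurd h.symm (hT.av _ (hidl e he) e' he')
      · rw [hf2 e he, hf2 e' he'] at h
        exact hidinj e he e' he' (hT.inj _ (hidl e he) _ (hidl e' he') h)
  · intro e e' h
    have hKn : ∀ k ∈ K, ∀ e, e ∉ K → N k (f k) ≠ N e (p (idx e)) := by
      intro k hk e he hke
      obtain ⟨x, hx, hxK, -⟩ := hhead e he
      obtain ⟨k', hk', hk'x⟩ := hK.cl x k hk (hx.trans hke.symm)
      exact hxK k' hk' hk'x
    change N e (plc K f idx p e) = N e' (plc K f idx p e') at h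
    by_cases he : e ∈ K
    · by_cases he' : e' ∈ K
      · rw [hf1 e he, hf1 e' he'] at h
        exact hK.hinj e he e' he' h
      · rw [hf1 e he, hf2 e' he'] at h
        exact absurd h (hKn e he e' he')
    · by_cases he' : e' ∈ K
      · rw [hf2 e he, hf1 e' he'] at h
        exact absurd h.symm (hKn e' he' e he)
      · rw [hf2 e he, hf2 e' he'] at h
        obtain ⟨x, hx, -, hx'⟩ := hhead e he
        obtain ⟨z, hz, -, hz'⟩ := hhead e' he'
        have hxz : x = z := hβ (hx.trans (h.trans hz.symm))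
        rcases hx' with ⟨h5, h6⟩ | ⟨h5, h6⟩
        · rcases hz' with ⟨h7, h8⟩ | ⟨h7, h8⟩
          · exact hidinj e he e' he' (h5.trans h7.symm)
          · exact absurd (h8.symm.trans (hxz.symm.trans h6)) (hx3 _ (by omega))
        · rcases hz' with ⟨h7, h8⟩ | ⟨h7, h8⟩
          · exact absurd (h6.symm.trans (hxz.trans h8)) (hx3 _ (by omega))
          · have h9 := hT.inj (idx e + 1) (by omega) (idx e' + 1) (by omega)
              (h6.symm.trans (hxz.trans h8))
            exact hidinj e he e' he' (by omega)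
  · refine le_trans (Finset.card_insert_le _ _) ?_
    have : (Finset.univ.image (plc K f idx p)).card ≤ Fintype.card ε := by
      refine le_trans Finset.card_image_le ?_
      rw [Finset.card_univ]
    omega
  · intro i
    exact Finset.mem_insert_of_mem (Finset.mem_image_of_mem _ (Finset.mem_univ i))
  · intro x e h
    by_cases he : e ∈ K
    · rw [hf1 e he] at h
      obtain ⟨k, hk, hkx⟩ := hK.cl x e he h
      refine Finset.mem_insert_of_mem (Finset.mem_image.2 ⟨k, Finset.mem_univ _, ?_⟩)
      rw [hf1 k hk, hkx]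
    · rw [hf2 e he] at h
      obtain ⟨z, hz, -, hz'⟩ := hhead e he
      have hxz : x = z := hβ (h.trans hz.symm)
      rcases hz' with ⟨h5, h6⟩ | ⟨h5, h6⟩
      · rw [hxz, h6]
        exact Finset.mem_insert_self _ _
      · refine Finset.mem_insert_of_mem (Finset.mem_image.2 ⟨c (idx e + 1), Finset.mem_univ _, ?_⟩)
        rw [hf2 _ (hcK _ (by omega)), hidx _ (by omega), hxz, h6]

end core

/-- A row-latin matrix with fewer rows than columns, all of whose rows outside a set of `t`
exceptional rows agree with a reference row in many columns, has a transversal. -/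
theorem near_constant {ι X : Type} {α : Type u} [Fintype ι] [Fintype X] (M : ι → X → α)
    (hM : ∀ i, Function.Injective (M i)) (β : X → α) (hβ : Function.Injective β)
    (E : Finset ι) (hE : (E.card + 1) ^ 2 < 4 * Fintype.card X)
    (hA : ∀ k : ℕ, {i : ι | i ∉ E ∧ {x | M i x = β x}.ncard ≤ E.card + 1 + k}.ncard ≤ k) :
    ∃ f : ι → X, Function.Injective f ∧ Function.Injective fun i => M i (f i) := by
  classical
  obtain ⟨g, B, hg, hgh, hBc, hgB, hB⟩ := core β hβ (fun i : E => M i.1) (fun i => hM i.1)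
    (by rw [Fintype.card_coe]; exact hE)
  rw [Fintype.card_coe] at hBc
  -- Hall's theorem for the other rows
  obtain ⟨A, hAd⟩ : ∃ A : {i // i ∉ E} → Finset X,
      ∀ i, A i = (Finset.univ.filter fun x => M i.1 x = β x) \ B := ⟨_, fun _ => rfl⟩
  have hall : ∀ T : Finset {i // i ∉ E}, T.card ≤ (T.biUnion A).card := by
    intro T
    rcases Nat.eq_zero_or_pos T.card with h0 | hpos
    · omega
    · obtain ⟨k, hk⟩ : ∃ k, T.card = k + 1 := ⟨T.card - 1, by omega⟩
      obtain ⟨i, hi, hik⟩ : ∃ i ∈ T, E.card + 1 + k < {x | M i.1 x = β x}.ncard := by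
        by_contra hcon
        push Not at hcon
        have h1 := hA k
        have h2 : (T.map (Function.Embedding.subtype _) : Set ι) ⊆
            {i : ι | i ∉ E ∧ {x | M i x = β x}.ncard ≤ E.card + 1 + k} := by
          intro i hi
          rw [Finset.mem_coe, Finset.mem_map] at hi
          obtain ⟨j, hj, rfl⟩ := hi
          exact ⟨j.2, hcon j hj⟩
        have h3 := Set.ncard_le_ncard h2 (Set.toFinite _)
        rw [Set.ncard_coe_finset, Finset.card_map] at h3
        omega
      refine le_trans ?_ (Finset.card_le_card (Finset.subset_biUnion_of_mem A hi))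
      rw [hAd]
      have h4 : {x | M i.1 x = β x}.ncard = (Finset.univ.filter fun x => M i.1 x = β x).card := by
        rw [← Set.ncard_coe_finset]
        congr 1
        ext x
        simp
      have h5 := Finset.le_card_sdiff B (Finset.univ.filter fun x => M i.1 x = β x)
      omega
  obtain ⟨h, hhinj, hhA⟩ := (Finset.all_card_le_biUnion_card_iff_exists_injective A).mp hall
  have hh1 : ∀ i, M i.1 (h i) = β (h i) := by
    intro i
    have h3 := hhA i
    rw [hAd, Finset.mem_sdiff, Finset.mem_filter] at h3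
    exact h3.1.2
  have hh2 : ∀ i, h i ∉ B := by
    intro i
    have h3 := hhA i
    rw [hAd, Finset.mem_sdiff] at h3
    exact h3.2
  refine ⟨fun i => if hi : i ∈ E then g ⟨i, hi⟩ else h ⟨i, hi⟩, ?_, ?_⟩
  · intro i k hik
    by_cases hi : i ∈ E
    · by_cases hk : k ∈ E
      · simp only [dif_pos hi, dif_pos hk] at hik
        have := hg hik
        exact Subtype.mk.inj this
      · simp only [dif_pos hi, dif_neg hk] at hik
        exact absurd (hik ▸ hgB ⟨i, hi⟩) (hh2 ⟨k, hk⟩)
    · by_cases hk : k ∈ E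
      · simp only [dif_neg hi, dif_pos hk] at hik
        exact absurd (hik.symm ▸ hgB ⟨k, hk⟩) (hh2 ⟨i, hi⟩)
      · simp only [dif_neg hi, dif_neg hk] at hik
        exact Subtype.mk.inj (hhinj hik)
  · intro i k hik
    by_cases hi : i ∈ E
    · by_cases hk : k ∈ E
      · simp only [dif_pos hi, dif_pos hk] at hik
        exact Subtype.mk.inj (hgh hik)
      · simp only [dif_pos hi, dif_neg hk] at hik
        exact absurd (hB (h ⟨k, hk⟩) ⟨i, hi⟩ ((hh1 ⟨k, hk⟩).symm.trans hik.symm)) (hh2 ⟨k, hk⟩)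
    · by_cases hk : k ∈ E
      · simp only [dif_neg hi, dif_pos hk] at hik
        exact absurd (hB (h ⟨i, hi⟩) ⟨k, hk⟩ ((hh1 ⟨i, hi⟩).symm.trans hik)) (hh2 ⟨i, hi⟩)
      · simp only [dif_neg hi, dif_neg hk] at hik
        exact Subtype.mk.inj (hhinj (hβ ((hh1 ⟨i, hi⟩).symm.trans (hik.trans (hh1 ⟨k, hk⟩)))))

end Pool.Agent.H40.ST2
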