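import Pool.Agent.H40.ST2.Mono
import Pool.Agent.H30.ST.Blocks

/-!
# Transversals of row-latin matrices whose cell graph is a pseudoforest (`MP_3d056f_co`)

The cell graph is the bipartite graph of the pairs (column, symbol occurring in the column).  If
every component of it has at most one cycle, then a row-latin `m × n` matrix, `m < n`, has a
transversal.
-/

set_option autoImplicit false

namespace Pool.Agent.H40.ST2

section pseudo

variable {ι X α : Type}

/-- all symbols occur in exactly two columns, all columns contain exactly two symbols -/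
theorem pseudo_regular [DecidableEq X] [DecidableEq α] (M : ι → X → α)
    (hM : ∀ i, Function.Injective (M i)) (R : Finset ι) (S : Finset X)
    (hc : R.card + 1 = S.card) (T : Finset α) (hTS : T.card = S.card)
    (hT : ∀ i ∈ R, ∀ x ∈ S, M i x ∈ T)
    (hsym : ∀ y ∈ T, ∀ x ∈ S, ∀ x' ∈ S, ∀ x'' ∈ S, x ≠ x' → (∃ i ∈ R, M i x = y) →
      (∃ i ∈ R, M i x' = y) → (∃ i ∈ R, M i x'' = y) → x'' = x ∨ x'' = x')
    (hcol : ∀ x ∈ S, ∀ i ∈ R, ∀ i' ∈ R, ∀ i'' ∈ R, M i x ≠ M i' x → M i'' x = M i x ∨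
      M i'' x = M i' x) :
    ∃ f : ι → X, Sol M R S f := by
  classical
  have hne : S.Nonempty := Finset.card_pos.mp (by omega)
  -- every row is a bijection from `S` onto `T`
  have hbij : ∀ i ∈ R, ∀ y ∈ T, ∃ x ∈ S, M i x = y := by
    intro i hi y hy
    have h1 : S.image (M i) = T := by
      refine Finset.eq_of_subset_of_card_le ?_ ?_
      · intro z hz
        rw [Finset.mem_image] at hz
        obtain ⟨x, hx, rfl⟩ := hz
        exact hT i hi x hx
      · rw [Finset.card_image_of_injective _ (hM i), hTS]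
    rw [← h1, Finset.mem_image] at hy
    exact hy
  -- the components
  let r : {x // x ∈ S} → {x // x ∈ S} → Prop := fun x x' => ∃ i ∈ R, ∃ i' ∈ R, M i x = M i' x'
  have hstep : ∀ x x' : {x // x ∈ S}, r x x' → ∀ a ∈ R, ∀ a' ∈ R, M a x = M a' x →
      M a x' = M a' x' := by
    rintro x x' ⟨i, hi, i', hi', hii⟩ a ha a' ha' haa
    by_cases hxx : x = x'
    · rw [← hxx]
      exact haa
    have hxx' : x.1 ≠ x'.1 := fun h => hxx (Subtype.ext h)
    have hyT : M i x ∈ T := hT i hi x x.2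
    have hx1 : ∃ k ∈ R, M k x = M i x := ⟨i, hi, rfl⟩
    have hx2 : ∃ k ∈ R, M k x' = M i x := ⟨i', hi', hii.symm⟩
    by_cases hay : M a x = M i x
    · have h1 : M a x' ≠ M i x := by
        intro h
        exact hxx' (hM a (hay.trans h.symm))
      have h2 : M a' x' ≠ M i x := by
        intro h
        exact hxx' (hM a' ((haa.symm.trans hay).trans h.symm))
      rcases hcol x' x'.2 a ha i' hi' a' ha' (by rw [← hii]; exact h1) with h | h
      · exact h.symm
      · rw [← hii] at h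
        exact absurd h h2
    · have h3 : ∀ k ∈ R, M k x ≠ M i x → M k x' = M i x := by
        intro k hk hkx
        obtain ⟨z, hz, hkz⟩ := hbij k hk _ hyT
        rcases hsym _ hyT x x.2 x' x'.2 z hz hxx' hx1 hx2 ⟨k, hk, hkz⟩ with h | h
        · rw [h] at hkz
          exact absurd hkz hkx
        · rw [h] at hkz
          exact hkz
      rw [h3 a ha hay, h3 a' ha' (by rw [← haa]; exact hay)]
  have hrsymm : ∀ x x', r x x' → r x' x := by
    rintro x x' ⟨i, hi, i', hi', h⟩
    exact ⟨i', hi', i, hi, h.symm⟩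
  have hgen : ∀ x x' : {x // x ∈ S}, Relation.EqvGen r x x' → ∀ a ∈ R, ∀ a' ∈ R,
      (M a x = M a' x ↔ M a x' = M a' x') := by
    intro x x' h
    induction h with
    | rel x y hxy =>
      intro a ha a' ha'
      exact ⟨hstep x y hxy a ha a' ha', hstep y x (hrsymm x y hxy) a ha a' ha'⟩
    | refl x =>
      intro a _ a' _
      exact Iff.rfl
    | symm x y _ ih =>
      intro a ha a' ha'
      exact (ih a ha a' ha').symm
    | trans x y z _ _ ih1 ih2 =>
      intro a ha a' ha'
      exact (ih1 a ha a' ha').trans (ih2 a ha a' ha')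
  let b : {x // x ∈ S} → Quot r := Quot.mk r
  obtain ⟨x₀, -, hx₀⟩ := Finset.exists_max_image (Finset.univ : Finset {x // x ∈ S})
    (fun x => (Finset.univ.filter fun x' => b x' = b x).card)
    ⟨⟨hne.choose, hne.choose_spec⟩, Finset.mem_univ _⟩
  obtain ⟨f, hf1, hf2⟩ := Pool.Agent.H30.ST.block_theorem
    (fun (i : {i // i ∈ R}) (x : {x // x ∈ S}) => M i.1 x.1)
    (fun i x x' h => Subtype.ext (hM i.1 h)) b
    (fun i i' x x' h => Quot.sound ⟨i.1, i.2, i'.1, i'.2, h⟩) (b x₀) (fun γ => by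
      obtain ⟨x, rfl⟩ := Quot.exists_rep γ
      exact hx₀ x (Finset.mem_univ _)) (by rw [Fintype.card_coe, Fintype.card_coe]; exact hc)
    (Or.inr (by
      have hx₀b : b x₀ = b x₀ := rfl
      have h1 : (Set.range (fun (i : {i // i ∈ R}) (x : {x // b x = b x₀}) =>
          M i.1 x.1.1)).ncard ≤ (Set.range fun i : {i // i ∈ R} => M i.1 x₀.1).ncard := by
        refine Set.ncard_le_ncard_of_injOn (fun φ => φ ⟨x₀, hx₀b⟩) ?_ ?_ (Set.toFinite _)
        · rintro _ ⟨i, rfl⟩
          exact ⟨i, rfl⟩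
        · rintro _ ⟨i, rfl⟩ _ ⟨i', rfl⟩ h
          funext x
          have h2 : Relation.EqvGen r x₀ x.1 := Quot.eqvGen_exact x.2.symm
          exact (hgen x₀ x.1 h2 i.1 i.2 i'.1 i'.2).1 h
      refine h1.trans ?_
      rcases R.eq_empty_or_nonempty with h0 | ⟨i, hi⟩
      · have : IsEmpty {i // i ∈ R} :=
          ⟨fun i => Finset.notMem_empty i.1 (Finset.eq_empty_iff_forall_notMem.1 h0 i.1 i.2).elim⟩
        rw [Set.range_eq_empty, Set.ncard_empty]
        omega
      · by_cases h4 : ∃ i' ∈ R, M i x₀.1 ≠ M i' x₀.1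
        · obtain ⟨i', hi', hii⟩ := h4
          refine (Set.ncard_le_ncard (t := {M i x₀.1, M i' x₀.1}) ?_ (Set.toFinite _)).trans
            ((Set.ncard_insert_le _ _).trans (by rw [Set.ncard_singleton]; omega))
          rintro _ ⟨k, rfl⟩
          rw [Set.mem_insert_iff, Set.mem_singleton_iff]
          exact hcol x₀.1 x₀.2 i hi i' hi' k.1 k.2 hii
        · push Not at h4
          refine (Set.ncard_le_ncard (t := {M i x₀.1}) ?_ (Set.toFinite _)).trans
            (by rw [Set.ncard_singleton]; omega)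
          rintro _ ⟨k, rfl⟩
          rw [Set.mem_singleton_iff]
          exact (h4 k.1 k.2).symm))
  refine ⟨fun i => if hi : i ∈ R then (f ⟨i, hi⟩).1 else x₀.1, fun i hi => ?_,
    fun i hi k hk h => ?_, fun i hi k hk h => ?_⟩
  · rw [dif_pos hi]
    exact (f ⟨i, hi⟩).2
  · rw [dif_pos hi, dif_pos hk] at h
    exact Subtype.mk.inj (hf1 (Subtype.ext h))
  · rw [dif_pos hi, dif_pos hk] at h
    exact Subtype.mk.inj (hf2 h)

theorem pseudo_aux [DecidableEq X] [DecidableEq α] (M : ι → X → α)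
    (hM : ∀ i, Function.Injective (M i))
    (hP : ∀ (S : Finset X) (T : Finset α),
      {c : X × α | c.1 ∈ S ∧ c.2 ∈ T ∧ ∃ i, M i c.1 = c.2}.ncard ≤ S.card + T.card)
    (m : ℕ) : ∀ (R : Finset ι) (S : Finset X), R.card = m → S.card = m + 1 →
      ∃ f : ι → X, Sol M R S f := by
  classical
  induction m with
  | zero =>
    intro R S hR hS
    obtain ⟨c, hc⟩ : S.Nonempty := Finset.card_pos.mp (by omega)
    have h0 : R = ∅ := Finset.card_eq_zero.mp hR
    refine ⟨fun _ => c, ⟨fun i hi => ?_, fun i hi => ?_, fun i hi => ?_⟩⟩ <;>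
    · rw [h0] at hi
      exact absurd hi (Finset.notMem_empty _)
  | succ m ih =>
    intro R S hR hS
    have hred : ∀ i ∈ R, ∀ x ∈ S, (∀ k ∈ R, ∀ x' ∈ S, x' ≠ x → M k x' ≠ M i x) →
        ∃ f : ι → X, Sol M R S f := by
      intro i hi x hx h
      obtain ⟨f, hf⟩ := ih (R.erase i) (S.erase x)
        (by rw [Finset.card_erase_of_mem hi, hR, Nat.add_sub_cancel])
        (by rw [Finset.card_erase_of_mem hx, hS, Nat.add_sub_cancel])
      refine ⟨_, hf.extend hx fun k hk => ?_⟩
      have h1 := hf.mem k hk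
      rw [Finset.mem_erase] at h1
      exact h k (Finset.mem_of_mem_erase hk) _ h1.2 h1.1
    -- a symbol which occurs in one column only
    by_cases h1 : ∃ i ∈ R, ∃ x ∈ S, ∀ k ∈ R, ∀ x' ∈ S, x' ≠ x → M k x' ≠ M i x
    · obtain ⟨i, hi, x, hx, h⟩ := h1
      exact hred i hi x hx h
    -- a column with one symbol only
    by_cases h2 : ∃ x ∈ S, ∀ i ∈ R, ∀ k ∈ R, M i x = M k x
    · obtain ⟨x, hx, h⟩ := h2
      obtain ⟨i, hi⟩ : R.Nonempty := Finset.card_pos.mp (by omega)
      refine hred i hi x hx fun k hk x' _ hne hkx => hne ?_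
      rw [h i hi k hk] at hkx
      exact hM k hkx
    push Not at h1 h2
    -- the cell graph is two-regular
    obtain ⟨T, hTd⟩ : ∃ T : Finset α, T = S.biUnion fun x => R.image fun i => M i x := ⟨_, rfl⟩
    have hTm : ∀ y, y ∈ T ↔ ∃ x ∈ S, ∃ i ∈ R, M i x = y := by
      intro y
      rw [hTd, Finset.mem_biUnion]
      refine exists_congr fun x => and_congr_right fun _ => ?_
      rw [Finset.mem_image]
    obtain ⟨E, hE⟩ : ∃ E : Finset (X × α),
        E = (S ×ˢ T).filter fun c => ∃ i ∈ R, M i c.1 = c.2 := ⟨_, rfl⟩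
    have hEm : ∀ x y, (x, y) ∈ E ↔ x ∈ S ∧ ∃ i ∈ R, M i x = y := by
      intro x y
      rw [hE, Finset.mem_filter, Finset.mem_product]
      constructor
      · rintro ⟨⟨h3, -⟩, h4⟩
        exact ⟨h3, h4⟩
      · rintro ⟨h3, i, hi, h4⟩
        exact ⟨⟨h3, (hTm y).2 ⟨x, h3, i, hi, h4⟩⟩, i, hi, h4⟩
    have hEc : E.card ≤ S.card + T.card := by
      rw [← Set.ncard_coe_finset]
      have hsub : (E : Set (X × α)) ⊆
          {c : X × α | c.1 ∈ S ∧ c.2 ∈ T ∧ ∃ i, M i c.1 = c.2} := by
        rintro ⟨x, y⟩ hxy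
        rw [Finset.mem_coe, hEm] at hxy
        obtain ⟨h3, i, hi, h4⟩ := hxy
        exact ⟨h3, (hTm y).2 ⟨x, h3, i, hi, h4⟩, i, h4⟩
      refine (Set.ncard_le_ncard hsub ?_).trans (hP S T)
      refine Set.Finite.subset ((S ×ˢ T).finite_toSet) ?_
      rintro ⟨x, y⟩ hxy
      rw [Finset.mem_coe, Finset.mem_product]
      exact ⟨hxy.1, hxy.2.1⟩
    obtain ⟨i₀, hi₀⟩ : R.Nonempty := Finset.card_pos.mp (by omega)
    -- fibres over the columns
    have hfS : E.card = ∑ x ∈ S, (E.filter fun c => c.1 = x).card := by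
      refine Finset.card_eq_sum_card_fiberwise ?_
      rintro ⟨x, y⟩ hxy
      rw [Finset.mem_coe, hEm] at hxy
      exact Finset.mem_coe.2 hxy.1
    have hfT : E.card = ∑ y ∈ T, (E.filter fun c => c.2 = y).card := by
      refine Finset.card_eq_sum_card_fiberwise ?_
      rintro ⟨x, y⟩ hxy
      rw [Finset.mem_coe, hEm] at hxy
      exact Finset.mem_coe.2 ((hTm y).2 ⟨x, hxy.1, hxy.2⟩)
    have hgS : ∀ x ∈ S, 2 ≤ (E.filter fun c => c.1 = x).card := by
      intro x hx
      obtain ⟨i, hi, k, hk, hne⟩ := h2 x hx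
      have h3 : ({(x, M i x), (x, M k x)} : Finset (X × α)) ⊆ E.filter fun c => c.1 = x := by
        intro c hc
        rw [Finset.mem_insert, Finset.mem_singleton] at hc
        rw [Finset.mem_filter]
        rcases hc with rfl | rfl
        · exact ⟨(hEm _ _).2 ⟨hx, i, hi, rfl⟩, rfl⟩
        · exact ⟨(hEm _ _).2 ⟨hx, k, hk, rfl⟩, rfl⟩
      refine le_trans (le_of_eq ?_) (Finset.card_le_card h3)
      rw [Finset.card_pair]
      intro h
      exact hne (Prod.mk.inj h).2
    have hgT : ∀ y ∈ T, 2 ≤ (E.filter fun c => c.2 = y).card := by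
      intro y hy
      obtain ⟨x, hx, i, hi, rfl⟩ := (hTm y).1 hy
      obtain ⟨k, hk, x', hx', hne, hkx⟩ := h1 i hi x hx
      have h3 : ({(x, M i x), (x', M i x)} : Finset (X × α)) ⊆
          E.filter fun c => c.2 = M i x := by
        intro c hc
        rw [Finset.mem_insert, Finset.mem_singleton] at hc
        rw [Finset.mem_filter]
        rcases hc with rfl | rfl
        · exact ⟨(hEm _ _).2 ⟨hx, i, hi, rfl⟩, rfl⟩
        · exact ⟨(hEm _ _).2 ⟨hx', k, hk, hkx⟩, rfl⟩
      refine le_trans (le_of_eq ?_) (Finset.card_le_card h3)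
      rw [Finset.card_pair]
      intro h
      exact hne (Prod.mk.inj h).1.symm
    have hsS : S.card * 2 ≤ ∑ x ∈ S, (E.filter fun c => c.1 = x).card := by
      rw [← smul_eq_mul, ← Finset.sum_const]
      exact Finset.sum_le_sum hgS
    have hsT : T.card * 2 ≤ ∑ y ∈ T, (E.filter fun c => c.2 = y).card := by
      rw [← smul_eq_mul, ← Finset.sum_const]
      exact Finset.sum_le_sum hgT
    have hTS : T.card = S.card := by omega
    have heS : ∀ x ∈ S, (E.filter fun c => c.1 = x).card = 2 := by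
      have h3 : ∑ _x ∈ S, 2 = ∑ x ∈ S, (E.filter fun c => c.1 = x).card := by
        rw [Finset.sum_const, smul_eq_mul]
        omega
      intro x hx
      exact ((Finset.sum_eq_sum_iff_of_le hgS).1 h3 x hx).symm
    have heT : ∀ y ∈ T, (E.filter fun c => c.2 = y).card = 2 := by
      have h3 : ∑ _y ∈ T, 2 = ∑ y ∈ T, (E.filter fun c => c.2 = y).card := by
        rw [Finset.sum_const, smul_eq_mul]
        omega
      intro y hy
      exact ((Finset.sum_eq_sum_iff_of_le hgT).1 h3 y hy).symm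
    refine pseudo_regular M hM R S (by omega) T hTS
      (fun i hi x hx => (hTm _).2 ⟨x, hx, i, hi, rfl⟩) ?_ ?_
    · intro y hy x hx x' hx' x'' hx'' hne h3 h4 h5
      by_contra hcon
      push Not at hcon
      have h6 : ({(x, y), (x', y), (x'', y)} : Finset (X × α)) ⊆
          E.filter fun c => c.2 = y := by
        intro c hc
        rw [Finset.mem_insert, Finset.mem_insert, Finset.mem_singleton] at hc
        rw [Finset.mem_filter]
        rcases hc with rfl | rfl | rfl
        · exact ⟨(hEm _ _).2 ⟨hx, h3⟩, rfl⟩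
        · exact ⟨(hEm _ _).2 ⟨hx', h4⟩, rfl⟩
        · exact ⟨(hEm _ _).2 ⟨hx'', h5⟩, rfl⟩
      have h7 := Finset.card_le_card h6
      rw [heT y hy] at h7
      have h8 : ({(x, y), (x', y), (x'', y)} : Finset (X × α)).card = 3 := by
        rw [Finset.card_eq_three]
        refine ⟨_, _, _, ?_, ?_, ?_, rfl⟩
        · exact fun h => hne (Prod.mk.inj h).1
        · exact fun h => hcon.1 (Prod.mk.inj h).1.symm
        · exact fun h => hcon.2 (Prod.mk.inj h).1.symm
      omega
    · intro x hx i hi i' hi' i'' hi'' hne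
      by_contra hcon
      push Not at hcon
      have h6 : ({(x, M i x), (x, M i' x), (x, M i'' x)} : Finset (X × α)) ⊆
          E.filter fun c => c.1 = x := by
        intro c hc
        rw [Finset.mem_insert, Finset.mem_insert, Finset.mem_singleton] at hc
        rw [Finset.mem_filter]
        rcases hc with rfl | rfl | rfl
        · exact ⟨(hEm _ _).2 ⟨hx, i, hi, rfl⟩, rfl⟩
        · exact ⟨(hEm _ _).2 ⟨hx, i', hi', rfl⟩, rfl⟩
        · exact ⟨(hEm _ _).2 ⟨hx, i'', hi'', rfl⟩, rfl⟩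
      have h7 := Finset.card_le_card h6
      rw [heS x hx] at h7
      have h8 : ({(x, M i x), (x, M i' x), (x, M i'' x)} : Finset (X × α)).card = 3 := by
        rw [Finset.card_eq_three]
        refine ⟨_, _, _, ?_, ?_, ?_, rfl⟩
        · exact fun h => hne (Prod.mk.inj h).2
        · exact fun h => hcon.1 (Prod.mk.inj h).2.symm
        · exact fun h => hcon.2 (Prod.mk.inj h).2.symm
      omega

/-- A row-latin matrix with fewer rows than columns whose cell graph is a pseudoforest has a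
transversal. -/
theorem pseudoforest [Fintype ι] [Fintype X] (M : ι → X → α)
    (hM : ∀ i, Function.Injective (M i))
    (hP : ∀ (S : Finset X) (T : Finset α),
      {c : X × α | c.1 ∈ S ∧ c.2 ∈ T ∧ ∃ i, M i c.1 = c.2}.ncard ≤ S.card + T.card)
    (hc : Fintype.card ι < Fintype.card X) :
    ∃ f : ι → X, Function.Injective f ∧ Function.Injective fun i => M i (f i) := by
  classical
  obtain ⟨S, -, hS⟩ := Finset.exists_subset_card_eq (s := (Finset.univ : Finset X))
    (n := Fintype.card ι + 1) (by rw [Finset.card_univ]; omega)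
  obtain ⟨f, hf⟩ := pseudo_aux M hM hP (Fintype.card ι) Finset.univ S Finset.card_univ hS
  exact ⟨f, fun i k h => hf.inj i (Finset.mem_univ _) k (Finset.mem_univ _) h,
    fun i k h => hf.val i (Finset.mem_univ _) k (Finset.mem_univ _) h⟩

/-- If every column contains at most two distinct symbols, the cell graph condition holds. -/
theorem two_per_column (M : ι → X → α) (hM : ∀ i, Function.Injective (M i))
    (h2 : ∀ x, (Set.range fun i => M i x).encard ≤ 2) [Nonempty ι] (S : Finset X)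
    (T : Finset α) :
    {c : X × α | c.1 ∈ S ∧ c.2 ∈ T ∧ ∃ i, M i c.1 = c.2}.ncard ≤ S.card + T.card := by
  classical
  obtain ⟨i₀⟩ : Nonempty ι := inferInstance
  -- the cells on the row `i₀` and the other cells
  obtain ⟨A, hA⟩ : ∃ A : Set (X × α),
      A = {c : X × α | c.1 ∈ S ∧ c.2 ∈ T ∧ ∃ i, M i c.1 = c.2} := ⟨_, rfl⟩
  rw [← hA]
  have hfin : A.Finite := by
    refine Set.Finite.subset ((S ×ˢ T).finite_toSet) ?_
    rintro ⟨x, y⟩ hxy
    rw [hA] at hxy
    rw [Finset.mem_coe, Finset.mem_product]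
    exact ⟨hxy.1, hxy.2.1⟩
  have h3 : A ⊆ (A ∩ {c | M i₀ c.1 = c.2}) ∪ (A \ {c | M i₀ c.1 = c.2}) := by
    intro c hc
    by_cases h : M i₀ c.1 = c.2
    · exact Or.inl ⟨hc, h⟩
    · exact Or.inr ⟨hc, h⟩
  have h4 : (A ∩ {c | M i₀ c.1 = c.2}).ncard ≤ T.card := by
    rw [← Set.ncard_coe_finset]
    refine Set.ncard_le_ncard_of_injOn Prod.snd ?_ ?_ (Finset.finite_toSet _)
    · rintro ⟨x, y⟩ ⟨h5, -⟩
      rw [hA] at h5
      exact h5.2.1
    · rintro ⟨x, y⟩ ⟨-, h5⟩ ⟨x', y'⟩ ⟨-, h6⟩ h
      have h5' : M i₀ x = y := h5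
      have h6' : M i₀ x' = y' := h6
      have h' : y = y' := h
      have hx : x = x' := hM i₀ (by rw [h5', h6', h'])
      rw [hx, h']
  have h5 : (A \ {c | M i₀ c.1 = c.2}).ncard ≤ S.card := by
    rw [← Set.ncard_coe_finset]
    refine Set.ncard_le_ncard_of_injOn Prod.fst ?_ ?_ (Finset.finite_toSet _)
    · rintro ⟨x, y⟩ ⟨h5, -⟩
      rw [hA] at h5
      exact h5.1
    · rintro ⟨x, y⟩ ⟨h5, h5n⟩ ⟨x', y'⟩ ⟨h6, h6n⟩ h
      have h' : x = x' := h
      subst h'
      rw [hA] at h5 h6
      obtain ⟨-, -, i, hi⟩ := h5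
      obtain ⟨-, -, k, hk⟩ := h6
      by_contra hne
      have hyy : y ≠ y' := fun h => hne (by rw [h])
      have h7 : ({M i₀ x, y, y'} : Set α) ⊆ Set.range fun i => M i x := by
        rintro z (rfl | rfl | rfl)
        · exact ⟨i₀, rfl⟩
        · exact ⟨i, hi⟩
        · exact ⟨k, hk⟩
      have h8 := Set.encard_le_encard h7
      have h9 : ({M i₀ x, y, y'} : Set α).encard = 3 := by
        rw [Set.encard_eq_three]
        exact ⟨M i₀ x, y, y', h5n, h6n, hyy, rfl⟩
      rw [h9] at h8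
      exact absurd (h8.trans (h2 x)) (by decide)
  calc A.ncard ≤ ((A ∩ {c | M i₀ c.1 = c.2}) ∪ (A \ {c | M i₀ c.1 = c.2})).ncard :=
        Set.ncard_le_ncard h3 ((hfin.inter_of_left _).union hfin.diff)
    _ ≤ (A ∩ {c | M i₀ c.1 = c.2}).ncard + (A \ {c | M i₀ c.1 = c.2}).ncard :=
        Set.ncard_union_le _ _
    _ ≤ S.card + T.card := by omega

end pseudo

end Pool.Agent.H40.ST2
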