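import Pool.Agent.H40.ST2.Two

/-!
# Row-latin matrices with few cells (`MP_3d056f_co`)

A cell of the rows `A` and the columns `S` is a pair (column, symbol which occurs in it).  If for
all `A` and `S` there are at most twice as many cells as symbols, then a row-latin `m × n` matrix,
`m < n`, has a transversal.
-/

set_option autoImplicit false

namespace Pool.Agent.H40.ST2

universe u

section sparse

variable {ι X : Type} {α : Type u}

/-- at most twice as many cells as symbols in every submatrix -/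
def SparseCells (M : ι → X → α) : Prop :=
  ∀ (A : Finset ι) (S : Finset X), {c : X × α | c.1 ∈ S ∧ ∃ i ∈ A, M i c.1 = c.2}.ncard ≤
    2 * {y : α | ∃ x ∈ S, ∃ i ∈ A, M i x = y}.ncard

theorem sparse_aux (M : ι → X → α) (hM : ∀ i, Function.Injective (M i))
    (hP : SparseCells M) (m : ℕ) : ∀ (R : Finset ι) (S : Finset X), R.card = m →
      S.card = m + 1 → ∃ f : ι → X, Sol M R S f := by
  classical
  induction m with
  | zero =>
    intro R S hR hS
    obtain ⟨c, hc⟩ : S.Nonempty := Finset.card_pos.mp (by omega)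
    have h0 : R = ∅ := Finset.card_eq_zero.mp hR
    refine ⟨fun _ => c, ⟨fun i hi => ?_, fun i hi => ?_, fun i hi => ?_⟩⟩ <;>
    · rw [h0] at hi
      exact absurd hi (Finset.notMem_empty _)
  | succ m ih =>
    intro R S hR hS
    -- a symbol which occurs in one column only
    by_cases h1 : ∃ i ∈ R, ∃ x ∈ S, ∀ k ∈ R, ∀ x' ∈ S, x' ≠ x → M k x' ≠ M i x
    · obtain ⟨i, hi, x, hx, h⟩ := h1
      obtain ⟨f, hf⟩ := ih (R.erase i) (S.erase x)
        (by rw [Finset.card_erase_of_mem hi, hR, Nat.add_sub_cancel])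
        (by rw [Finset.card_erase_of_mem hx, hS, Nat.add_sub_cancel])
      refine ⟨_, hf.extend hx fun k hk => ?_⟩
      have h1 := hf.mem k hk
      rw [Finset.mem_erase] at h1
      exact h k (Finset.mem_of_mem_erase hk) _ h1.2 h1.1
    push Not at h1
    -- every symbol occurs in exactly two columns
    obtain ⟨T, hTd⟩ : ∃ T : Finset α, T = S.biUnion fun x => R.image fun i => M i x := ⟨_, rfl⟩
    have hTm : ∀ y, y ∈ T ↔ ∃ x ∈ S, ∃ i ∈ R, M i x = y := by
      intro y
      rw [hTd, Finset.mem_biUnion]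
      refine exists_congr fun x => and_congr_right fun _ => ?_
      rw [Finset.mem_image]
    obtain ⟨E, hE⟩ : ∃ E : Finset (X × α),
        E = (S ×ˢ T).filter fun c => ∃ i ∈ R, M i c.1 = c.2 := ⟨_, rfl⟩
    have hEm : ∀ x y, (x, y) ∈ E ↔ x ∈ S ∧ ∃ i ∈ R, M i x = y := by
      intro x y
      rw [hE, Finset.mem_filter, Finset.mem_product]
      constructor
      · rintro ⟨⟨h3, -⟩, h4⟩
        exact ⟨h3, h4⟩
      · rintro ⟨h3, i, hi, h4⟩
        exact ⟨⟨h3, (hTm y).2 ⟨x, h3, i, hi, h4⟩⟩, i, hi, h4⟩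
    have hEc : E.card ≤ 2 * T.card := by
      have h3 : {c : X × α | c.1 ∈ S ∧ ∃ i ∈ R, M i c.1 = c.2} = (E : Set (X × α)) := by
        ext ⟨x, y⟩
        rw [Finset.mem_coe, hEm]
        exact Iff.rfl
      have h4 : {y : α | ∃ x ∈ S, ∃ i ∈ R, M i x = y} = (T : Set α) := by
        ext y
        rw [Finset.mem_coe, hTm]
        exact Iff.rfl
      have h5 := hP R S
      rw [h3, h4, Set.ncard_coe_finset, Set.ncard_coe_finset] at h5
      exact h5
    have hfT : E.card = ∑ y ∈ T, (E.filter fun c => c.2 = y).card := by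
      refine Finset.card_eq_sum_card_fiberwise ?_
      rintro ⟨x, y⟩ hxy
      rw [Finset.mem_coe, hEm] at hxy
      exact Finset.mem_coe.2 ((hTm y).2 ⟨x, hxy.1, hxy.2⟩)
    have hgT : ∀ y ∈ T, 2 ≤ (E.filter fun c => c.2 = y).card := by
      intro y hy
      obtain ⟨x, hx, i, hi, rfl⟩ := (hTm y).1 hy
      obtain ⟨k, hk, x', hx', hne, hkx⟩ := h1 i hi x hx
      have h3 : ({(x, M i x), (x', M i x)} : Finset (X × α)) ⊆
          E.filter fun c => c.2 = M i x := by
        intro c hc
        rw [Finset.mem_insert, Finset.mem_singleton] at hc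
        rw [Finset.mem_filter]
        rcases hc with rfl | rfl
        · exact ⟨(hEm _ _).2 ⟨hx, i, hi, rfl⟩, rfl⟩
        · exact ⟨(hEm _ _).2 ⟨hx', k, hk, hkx⟩, rfl⟩
      refine le_trans (le_of_eq ?_) (Finset.card_le_card h3)
      rw [Finset.card_pair]
      intro h
      exact hne (Prod.mk.inj h).1.symm
    have hsT : T.card * 2 ≤ ∑ y ∈ T, (E.filter fun c => c.2 = y).card := by
      rw [← smul_eq_mul, ← Finset.sum_const]
      exact Finset.sum_le_sum hgT
    have heT : ∀ y ∈ T, (E.filter fun c => c.2 = y).card = 2 := by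
      have h3 : ∑ _y ∈ T, 2 = ∑ y ∈ T, (E.filter fun c => c.2 = y).card := by
        rw [Finset.sum_const, smul_eq_mul]
        omega
      intro y hy
      exact ((Finset.sum_eq_sum_iff_of_le hgT).1 h3 y hy).symm
    have h2 : TwoCol (fun (i : {i // i ∈ R}) (x : {x // x ∈ S}) => M i.1 x.1) := by
      rintro y x x' x'' ⟨i, hi⟩ ⟨i', hi'⟩ ⟨i'', hi''⟩
      by_contra hcon
      push Not at hcon
      have hyT : y ∈ T := (hTm y).2 ⟨x, x.2, i, i.2, hi⟩
      have h6 : ({(x.1, y), (x'.1, y), (x''.1, y)} : Finset (X × α)) ⊆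
          E.filter fun c => c.2 = y := by
        intro c hc
        rw [Finset.mem_insert, Finset.mem_insert, Finset.mem_singleton] at hc
        rw [Finset.mem_filter]
        rcases hc with rfl | rfl | rfl
        · exact ⟨(hEm _ _).2 ⟨x.2, i.1, i.2, hi⟩, rfl⟩
        · exact ⟨(hEm _ _).2 ⟨x'.2, i'.1, i'.2, hi'⟩, rfl⟩
        · exact ⟨(hEm _ _).2 ⟨x''.2, i''.1, i''.2, hi''⟩, rfl⟩
      have h7 := Finset.card_le_card h6
      rw [heT y hyT] at h7
      have h8 : ({(x.1, y), (x'.1, y), (x''.1, y)} : Finset (X × α)).card = 3 := by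
        rw [Finset.card_eq_three]
        refine ⟨_, _, _, ?_, ?_, ?_, rfl⟩
        · exact fun h => hcon.1 (Subtype.ext (Prod.mk.inj h).1)
        · exact fun h => hcon.2.1 (Subtype.ext (Prod.mk.inj h).1)
        · exact fun h => hcon.2.2 (Subtype.ext (Prod.mk.inj h).1)
      omega
    obtain ⟨f, hf⟩ := two_col_aux
      (M := fun (i : {i // i ∈ R}) (x : {x // x ∈ S}) => M i.1 x.1)
      (fun i x x' h => Subtype.ext (hM i.1 h)) h2 S.card Finset.univ Finset.univ
      (by rw [Finset.card_univ, Fintype.card_coe])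
      (by rw [Finset.card_univ, Finset.card_univ, Fintype.card_coe, Fintype.card_coe]; omega)
    obtain ⟨x₀, -⟩ : S.Nonempty := Finset.card_pos.mp (by omega)
    refine ⟨fun i => if hi : i ∈ R then (f ⟨i, hi⟩).1 else x₀, fun i hi => ?_,
      fun i hi k hk h => ?_, fun i hi k hk h => ?_⟩
    · rw [dif_pos hi]
      exact (f ⟨i, hi⟩).2
    · rw [dif_pos hi, dif_pos hk] at h
      exact Subtype.mk.inj
        (hf.inj _ (Finset.mem_univ _) _ (Finset.mem_univ _) (Subtype.ext h))
    · rw [dif_pos hi, dif_pos hk] at h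
      exact Subtype.mk.inj (hf.val _ (Finset.mem_univ _) _ (Finset.mem_univ _) h)

/-- A row-latin matrix with fewer rows than columns and with at most twice as many cells as symbols
in every submatrix has a transversal. -/
theorem sparse [Fintype ι] [Fintype X] (M : ι → X → α) (hM : ∀ i, Function.Injective (M i))
    (hP : SparseCells M) (hc : Fintype.card ι < Fintype.card X) :
    ∃ f : ι → X, Function.Injective f ∧ Function.Injective fun i => M i (f i) := by
  obtain ⟨S, -, hS⟩ := Finset.exists_subset_card_eq (s := (Finset.univ : Finset X))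
    (n := Fintype.card ι + 1) (by rw [Finset.card_univ]; omega)
  obtain ⟨f, hf⟩ := sparse_aux M hM hP (Fintype.card ι) Finset.univ S Finset.card_univ hS
  exact ⟨f, fun i k h => hf.inj i (Finset.mem_univ _) k (Finset.mem_univ _) h,
    fun i k h => hf.val i (Finset.mem_univ _) k (Finset.mem_univ _) h⟩

/-- If every symbol occurs in at most two columns. -/
theorem two_columns [Fintype ι] [Fintype X] (M : ι → X → α)
    (hM : ∀ i, Function.Injective (M i)) (h2 : ∀ y, {x | ∃ i, M i x = y}.ncard ≤ 2)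
    (hc : Fintype.card ι < Fintype.card X) :
    ∃ f : ι → X, Function.Injective f ∧ Function.Injective fun i => M i (f i) := by
  classical
  have h3 : TwoCol M := by
    intro y x x' x'' hx hx' hx''
    by_contra hcon
    push Not at hcon
    have h4 : (({x, x', x''} : Finset X) : Set X) ⊆ {x | ∃ i, M i x = y} := by
      intro z hz
      rw [Finset.mem_coe, Finset.mem_insert, Finset.mem_insert, Finset.mem_singleton] at hz
      rcases hz with rfl | rfl | rfl
      · exact hx
      · exact hx'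
      · exact hx''
    have h5 := Set.ncard_le_ncard h4 (Set.toFinite _)
    rw [Set.ncard_coe_finset] at h5
    have h6 : ({x, x', x''} : Finset X).card = 3 := by
      rw [Finset.card_eq_three]
      exact ⟨x, x', x'', hcon.1, hcon.2.1, hcon.2.2, rfl⟩
    have h7 := h2 y
    omega
  obtain ⟨S, -, hS⟩ := Finset.exists_subset_card_eq (s := (Finset.univ : Finset X))
    (n := Fintype.card ι + 1) (by rw [Finset.card_univ]; omega)
  obtain ⟨f, hf⟩ := two_col_aux hM h3 S.card Finset.univ S rfl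
    (by rw [Finset.card_univ, hS])
  exact ⟨f, fun i k h => hf.inj i (Finset.mem_univ _) k (Finset.mem_univ _) h,
    fun i k h => hf.val i (Finset.mem_univ _) k (Finset.mem_univ _) h⟩

/-- If every connected component of the cell graph has at most one cycle, the matrix is sparse. -/
theorem sparse_of_pseudoforest [Finite X] (M : ι → X → α)
    (hM : ∀ i, Function.Injective (M i))
    (hP : ∀ (S : Finset X) (T : Finset α),
      {c : X × α | c.1 ∈ S ∧ c.2 ∈ T ∧ ∃ i, M i c.1 = c.2}.ncard ≤ S.card + T.card) :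
    SparseCells M := by
  classical
  intro A S
  obtain ⟨T, hTd⟩ : ∃ T : Finset α, T = S.biUnion fun x => A.image fun i => M i x := ⟨_, rfl⟩
  have hTm : ∀ y, y ∈ T ↔ ∃ x ∈ S, ∃ i ∈ A, M i x = y := by
    intro y
    rw [hTd, Finset.mem_biUnion]
    refine exists_congr fun x => and_congr_right fun _ => ?_
    rw [Finset.mem_image]
  have h4 : {y : α | ∃ x ∈ S, ∃ i ∈ A, M i x = y} = (T : Set α) := by
    ext y
    rw [Finset.mem_coe, hTm]
    exact Iff.rfl
  rw [h4, Set.ncard_coe_finset]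
  have hfin : {c : X × α | c.1 ∈ S ∧ c.2 ∈ T ∧ ∃ i, M i c.1 = c.2}.Finite := by
    refine Set.Finite.subset ((S ×ˢ T).finite_toSet) ?_
    rintro ⟨x, y⟩ hxy
    rw [Finset.mem_coe, Finset.mem_product]
    exact ⟨hxy.1, hxy.2.1⟩
  have h5 : {c : X × α | c.1 ∈ S ∧ ∃ i ∈ A, M i c.1 = c.2}.ncard ≤ S.card + T.card := by
    refine (Set.ncard_le_ncard ?_ hfin).trans (hP S T)
    rintro ⟨x, y⟩ ⟨h6, i, hi, h7⟩
    exact ⟨h6, (hTm y).2 ⟨x, h6, i, hi, h7⟩, i, h7⟩
  rcases A.eq_empty_or_nonempty with h0 | ⟨i, hi⟩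
  · have h6 : {c : X × α | c.1 ∈ S ∧ ∃ i ∈ A, M i c.1 = c.2} = ∅ := by
      rw [Set.eq_empty_iff_forall_notMem]
      rintro c ⟨-, i, hi, -⟩
      rw [h0] at hi
      exact Finset.notMem_empty _ hi
    rw [h6, Set.ncard_empty]
    exact Nat.zero_le _
  · have h6 : S.card ≤ T.card := by
      refine Finset.card_le_card_of_injOn (M i) ?_ ?_
      · intro x hx
        exact Finset.mem_coe.2 ((hTm _).2 ⟨x, hx, i, hi, rfl⟩)
      · exact (hM i).injOn
    omega

/-- If every column contains at most two distinct symbols, the cell graph is a pseudoforest. -/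
theorem pseudoforest_of_two_symbols [Finite ι] [Nonempty ι] (M : ι → X → α)
    (hM : ∀ i, Function.Injective (M i)) (h2 : ∀ x, (Set.range fun i => M i x).ncard ≤ 2)
    (S : Finset X) (T : Finset α) :
    {c : X × α | c.1 ∈ S ∧ c.2 ∈ T ∧ ∃ i, M i c.1 = c.2}.ncard ≤ S.card + T.card := by
  classical
  obtain ⟨i₀⟩ : Nonempty ι := inferInstance
  -- the cells of the row `i₀` and the other cells
  obtain ⟨A, hA⟩ : ∃ A : Set (X × α),
      A = {c : X × α | c.1 ∈ S ∧ c.2 ∈ T ∧ ∃ i, M i c.1 = c.2} := ⟨_, rfl⟩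
  rw [← hA]
  have hfin : A.Finite := by
    refine Set.Finite.subset ((S ×ˢ T).finite_toSet) ?_
    rintro ⟨x, y⟩ hxy
    rw [hA] at hxy
    rw [Finset.mem_coe, Finset.mem_product]
    exact ⟨hxy.1, hxy.2.1⟩
  have h3 : A ⊆ (A ∩ {c | M i₀ c.1 = c.2}) ∪ (A \ {c | M i₀ c.1 = c.2}) := by
    intro c hc
    by_cases h : M i₀ c.1 = c.2
    · exact Or.inl ⟨hc, h⟩
    · exact Or.inr ⟨hc, h⟩
  have h4 : (A ∩ {c | M i₀ c.1 = c.2}).ncard ≤ T.card := by
    rw [← Set.ncard_coe_finset]
    refine Set.ncard_le_ncard_of_injOn Prod.snd ?_ ?_ (Finset.finite_toSet _)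
    · rintro ⟨x, y⟩ ⟨h5, -⟩
      rw [hA] at h5
      exact h5.2.1
    · rintro ⟨x, y⟩ ⟨-, h5⟩ ⟨x', y'⟩ ⟨-, h6⟩ h
      have h5' : M i₀ x = y := h5
      have h6' : M i₀ x' = y' := h6
      have h' : y = y' := h
      have hx : x = x' := hM i₀ (by rw [h5', h6', h'])
      rw [hx, h']
  have h5 : (A \ {c | M i₀ c.1 = c.2}).ncard ≤ S.card := by
    rw [← Set.ncard_coe_finset]
    refine Set.ncard_le_ncard_of_injOn Prod.fst ?_ ?_ (Finset.finite_toSet _)
    · rintro ⟨x, y⟩ ⟨h5, -⟩
      rw [hA] at h5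
      exact h5.1
    · rintro ⟨x, y⟩ ⟨h5, h5n⟩ ⟨x', y'⟩ ⟨h6, h6n⟩ h
      have h' : x = x' := h
      subst h'
      rw [hA] at h5 h6
      obtain ⟨-, -, i, hi⟩ := h5
      obtain ⟨-, -, k, hk⟩ := h6
      by_contra hne
      have hyy : y ≠ y' := fun h => hne (by rw [h])
      have h7 : (({M i₀ x, y, y'} : Finset α) : Set α) ⊆ Set.range fun i => M i x := by
        intro z hz
        rw [Finset.mem_coe, Finset.mem_insert, Finset.mem_insert, Finset.mem_singleton] at hz
        rcases hz with rfl | rfl | rfl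
        · exact ⟨i₀, rfl⟩
        · exact ⟨i, hi⟩
        · exact ⟨k, hk⟩
      have h8 := Set.ncard_le_ncard h7 (Set.finite_range _)
      rw [Set.ncard_coe_finset] at h8
      have h9 : ({M i₀ x, y, y'} : Finset α).card = 3 := by
        rw [Finset.card_eq_three]
        exact ⟨M i₀ x, y, y', h5n, h6n, hyy, rfl⟩
      have h10 := h2 x
      omega
  calc A.ncard ≤ ((A ∩ {c | M i₀ c.1 = c.2}) ∪ (A \ {c | M i₀ c.1 = c.2})).ncard :=
        Set.ncard_le_ncard h3 ((hfin.inter_of_left _).union hfin.sdiff)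
    _ ≤ (A ∩ {c | M i₀ c.1 = c.2}).ncard + (A \ {c | M i₀ c.1 = c.2}).ncard :=
        Set.ncard_union_le _ _
    _ ≤ S.card + T.card := by omega

end sparse

end Pool.Agent.H40.ST2
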