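import Pool.Agent.H40.ST2.Mono
import Pool.Agent.H30.ST.Drisko

/-!
# Row-latin matrices in which every symbol occurs in at most two columns (`MP_3d056f_co`)

Such an `m × n` matrix, `m < n`, has a transversal.
-/

set_option autoImplicit false

namespace Pool.Agent.H40.ST2

universe u

section two

variable {ι X : Type} {α : Type u}

/-- the symbol `y` occurs in the column `x` -/
def Occ (M : ι → X → α) (y : α) (x : X) : Prop := ∃ i, M i x = y

theorem occ_self (M : ι → X → α) (i : ι) (x : X) : Occ M (M i x) x := ⟨i, rfl⟩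

/-- A state: the columns of `P` except `r` carry distinct rows and distinct symbols which occur,
among the columns of `V`, only in columns of `P`. -/
structure St (M : ι → X → α) (R : Finset ι) (V P : Finset X) (r : X) (ρ : X → ι) : Prop where
  hr : r ∈ P
  hPV : P ⊆ V
  mem : ∀ v ∈ P, v ≠ r → ρ v ∈ R
  inj : ∀ v ∈ P, v ≠ r → ∀ w ∈ P, w ≠ r → ρ v = ρ w → v = w
  sym : ∀ v ∈ P, v ≠ r → ∀ w ∈ P, w ≠ r → M (ρ v) v = M (ρ w) w → v = w
  int : ∀ v ∈ P, v ≠ r → ∀ x ∈ V, x ∉ P → ¬ Occ M (M (ρ v) v) x

/-- the row `k` is not used by the state -/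
def Unused (R : Finset ι) (P : Finset X) (r : X) (ρ : X → ι) (k : ι) : Prop :=
  k ∈ R ∧ ∀ v ∈ P, v ≠ r → ρ v ≠ k

/-- every symbol occurs in at most two columns -/
def TwoCol (M : ι → X → α) : Prop :=
  ∀ y x x' x'', Occ M y x → Occ M y x' → Occ M y x'' → x = x' ∨ x = x'' ∨ x' = x''

theorem St.ext [DecidableEq X] {M : ι → X → α} (h2 : TwoCol M) {R : Finset ι} {V P : Finset X}
    {r : X} {ρ : X → ι} (h : St M R V P r ρ) {k : ι} (hk : Unused R P r ρ k) {x p : X}
    (hx : x ∈ V) (hxP : x ∉ P) (hp : p ∈ P) (ho : Occ M (M k x) p) :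
    St M R V (insert x P) r (Function.update ρ x k) := by
  have hne : ∀ v ∈ P, v ≠ x := fun v hv e => hxP (by rw [← e]; exact hv)
  have hu : ∀ v ∈ P, Function.update ρ x k v = ρ v := fun v hv =>
    Function.update_of_ne (hne v hv) _ _
  have hself : Function.update ρ x k x = k := Function.update_self _ _ _
  have hpx : p ≠ x := hne p hp
  refine ⟨Finset.mem_insert_of_mem h.hr, Finset.insert_subset hx h.hPV, ?_, ?_, ?_, ?_⟩
  · intro v hv hvr
    rcases Finset.mem_insert.1 hv with e | hv'
    · rw [e, hself]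
      exact hk.1
    · rw [hu v hv']
      exact h.mem v hv' hvr
  · intro v hv hvr w hw hwr hvw
    rcases Finset.mem_insert.1 hv with e | hv'
    · rcases Finset.mem_insert.1 hw with e' | hw'
      · rw [e, e']
      · rw [e, hself, hu w hw'] at hvw
        exact absurd hvw.symm (hk.2 w hw' hwr)
    · rcases Finset.mem_insert.1 hw with e' | hw'
      · rw [e', hself, hu v hv'] at hvw
        exact absurd hvw (hk.2 v hv' hvr)
      · rw [hu v hv', hu w hw'] at hvw
        exact h.inj v hv' hvr w hw' hwr hvw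
  · intro v hv hvr w hw hwr hvw
    rcases Finset.mem_insert.1 hv with e | hv'
    · rcases Finset.mem_insert.1 hw with e' | hw'
      · rw [e, e']
      · rw [e, hself, hu w hw'] at hvw
        exact absurd ⟨k, hvw⟩ (h.int w hw' hwr x hx hxP)
    · rcases Finset.mem_insert.1 hw with e' | hw'
      · rw [e', hself, hu v hv'] at hvw
        exact absurd ⟨k, hvw.symm⟩ (h.int v hv' hvr x hx hxP)
      · rw [hu v hv', hu w hw'] at hvw
        exact h.sym v hv' hvr w hw' hwr hvw
  · intro v hv hvr z hz hzP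
    rw [Finset.mem_insert, not_or] at hzP
    rcases Finset.mem_insert.1 hv with e | hv'
    · rw [e, hself]
      intro hoz
      rcases h2 _ _ _ _ (occ_self M k x) ho hoz with h3 | h3 | h3
      · exact hpx h3.symm
      · exact hzP.1 h3.symm
      · exact hzP.2 (h3 ▸ hp)
    · rw [hu v hv']
      exact h.int v hv' hvr z hz hzP.2

theorem St.move [DecidableEq X] {M : ι → X → α} {R : Finset ι} {V P : Finset X}
    {y : X} {ρ : X → ι} (h : St M R V P y ρ) {k : ι} (hk : Unused R P y ρ k) {z : X}
    (hz : z ∈ P) (hzy : z ≠ y) (hs : M (ρ z) z = M k y) :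
    St M R V P z (Function.update ρ y k) := by
  have hu : ∀ v, v ≠ y → Function.update ρ y k v = ρ v := fun v hv =>
    Function.update_of_ne hv _ _
  have hself : Function.update ρ y k y = k := Function.update_self _ _ _
  refine ⟨hz, h.hPV, ?_, ?_, ?_, ?_⟩
  · intro v hv _
    by_cases hvy : v = y
    · rw [hvy, hself]
      exact hk.1
    · rw [hu v hvy]
      exact h.mem v hv hvy
  · intro v hv _ w hw _ hvw
    by_cases hvy : v = y
    · by_cases hwy : w = y
      · rw [hvy, hwy]
      · rw [hvy, hself, hu w hwy] at hvw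
        exact absurd hvw.symm (hk.2 w hw hwy)
    · by_cases hwy : w = y
      · rw [hwy, hself, hu v hvy] at hvw
        exact absurd hvw (hk.2 v hv hvy)
      · rw [hu v hvy, hu w hwy] at hvw
        exact h.inj v hv hvy w hw hwy hvw
  · intro v hv hvz w hw hwz hvw
    by_cases hvy : v = y
    · by_cases hwy : w = y
      · rw [hvy, hwy]
      · rw [hvy, hself, hu w hwy, ← hs] at hvw
        exact absurd (h.sym z hz hzy w hw hwy hvw).symm hwz
    · by_cases hwy : w = y
      · rw [hwy, hself, hu v hvy, ← hs] at hvw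
        exact absurd (h.sym v hv hvy z hz hzy hvw) hvz
      · rw [hu v hvy, hu w hwy] at hvw
        exact h.sym v hv hvy w hw hwy hvw
  · intro v hv _ x hx hxP
    by_cases hvy : v = y
    · rw [hvy, hself, ← hs]
      exact h.int z hz hzy x hx hxP
    · rw [hu v hvy]
      exact h.int v hv hvy x hx hxP

theorem Unused.move [DecidableEq X] {R : Finset ι} {P : Finset X} {y z : X} {ρ : X → ι} {k k' : ι}
    (hk : Unused R P y ρ k') (hne : k' ≠ k) : Unused R P z (Function.update ρ y k) k' := by
  refine ⟨hk.1, fun v hv _ => ?_⟩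
  by_cases hvy : v = y
  · rw [hvy, Function.update_self]
    exact Ne.symm hne
  · rw [Function.update_of_ne hvy]
    exact hk.2 v hv hvy

theorem St.freed [DecidableEq X] {M : ι → X → α} {R : Finset ι} {V P : Finset X}
    {y : X} {ρ : X → ι} (h : St M R V P y ρ) {k : ι} (hk : Unused R P y ρ k) {z : X}
    (hz : z ∈ P) (hzy : z ≠ y) : Unused R P z (Function.update ρ y k) (ρ z) := by
  refine ⟨h.mem z hz hzy, fun v hv hvz => ?_⟩
  by_cases hvy : v = y
  · rw [hvy, Function.update_self]
    exact (hk.2 z hz hzy).symm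
  · rw [Function.update_of_ne hvy]
    exact fun e => hvz (h.inj v hv hvy z hz hzy e)

/-- The counting argument: the unused rows `A` at the free column `y` cannot outnumber the
columns in the pocket `Z` whose rows belong to `J`. -/
theorem pocket {M : ι → X → α} (hM : ∀ i, Function.Injective (M i)) (h2 : TwoCol M)
    {R : Finset ι} {V P : Finset X} {J : Finset ι}
    (hJ : ∀ y ρ, St M R V P y ρ → ∀ k, Unused R P y ρ k → k ∈ J)
    (hM2 : ∀ y ρ, St M R V P y ρ → ∀ k, Unused R P y ρ k → ∃ z ∈ P, z ≠ y ∧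
      M (ρ z) z = M k y) (m : ℕ) :
    ∀ (y : X) (ρ : X → ι) (A : Finset ι) (Z : Finset X) (Exc : Set α), Z.card = m →
      St M R V P y ρ → (∀ k ∈ A, Unused R P y ρ k) → (∀ k ∈ A, M k y ∉ Exc) → Z ⊆ P → y ∉ Z →
      (∀ v ∈ P, v ≠ y → ∀ w ∈ Z, v ≠ w → Occ M (M (ρ v) v) w → v ∈ Z) →
      (∀ v ∈ P, v ≠ y → Occ M (M (ρ v) v) y → M (ρ v) v ∉ Exc → v ∈ Z) →
      ∀ ZJ : Finset X, (∀ v, v ∈ ZJ ↔ v ∈ Z ∧ ρ v ∈ J) → ZJ.card < A.card → False := by
  classical
  induction m using Nat.strong_induction_on with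
  | _ m ih =>
    intro y ρ A Z Exc hZm hst hA hAe hZP hyZ hcl1 hcl2 ZJ hZJ hlt
    have hex : ∀ k ∈ A, ∃ z, z ∈ P ∧ z ≠ y ∧ M (ρ z) z = M k y := by
      intro k hk
      obtain ⟨z, hz, hzy, hs⟩ := hM2 y ρ hst k (hA k hk)
      exact ⟨z, hz, hzy, hs⟩
    have hneX : Nonempty X := ⟨y⟩
    choose! z hzP hzy hzs using hex
    have hzo : ∀ k ∈ A, Occ M (M (ρ (z k)) (z k)) y := by
      intro k hk
      rw [hzs k hk]
      exact occ_self M k y
    have hzZ : ∀ k ∈ A, z k ∈ Z := by
      intro k hk
      refine hcl2 (z k) (hzP k hk) (hzy k hk) (hzo k hk) ?_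
      rw [hzs k hk]
      exact hAe k hk
    -- the pointing relation
    let pt : X → X → Prop := fun v w => v ∈ P ∧ v ≠ y ∧ w ∈ P ∧ v ≠ w ∧ Occ M (M (ρ v) v) w
    have hru : ∀ v w w', pt v w → pt v w' → w = w' := by
      rintro v w w' ⟨-, -, -, hvw, ho⟩ ⟨-, -, -, hvw', ho'⟩
      rcases h2 _ _ _ _ (occ_self M (ρ v) v) ho ho' with h3 | h3 | h3
      · exact absurd h3 hvw
      · exact absurd h3 hvw'
      · exact h3
    have hptZ : ∀ z₀ ∈ Z, ∀ v, Relation.ReflTransGen pt v z₀ → v ∈ Z := by
      intro z₀ hz₀ v h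
      induction h using Relation.ReflTransGen.head_induction_on with
      | refl => exact hz₀
      | head h3 _ ih3 => exact hcl1 _ h3.1 h3.2.1 _ ih3 h3.2.2.2.1 h3.2.2.2.2
    let D : X → Finset X := fun z₀ => Z.filter fun v => Relation.ReflTransGen pt v z₀
    have hDm : ∀ z₀ v, v ∈ D z₀ ↔ v ∈ Z ∧ Relation.ReflTransGen pt v z₀ := by
      intro z₀ v
      exact Finset.mem_filter
    have hnoy : ∀ w, Relation.ReflTransGen pt y w → w = y := by
      intro w h
      rcases Relation.ReflTransGen.cases_head h with h3 | ⟨c, h3, -⟩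
      · exact h3.symm
      · exact absurd rfl h3.2.1
    have hdisj : ∀ a ∈ A, ∀ b ∈ A, ∀ v, Relation.ReflTransGen pt v (z a) →
        Relation.ReflTransGen pt v (z b) → z a = z b := by
      have key : ∀ a ∈ A, ∀ b ∈ A, Relation.ReflTransGen pt (z a) (z b) → z a = z b := by
        intro a ha b hb h
        rcases Relation.ReflTransGen.cases_head h with h3 | ⟨c, h3, h4⟩
        · exact h3
        · exfalso
          have h5 : pt (z a) y := ⟨hzP a ha, hzy a ha, hst.hr, hzy a ha, hzo a ha⟩
          rw [hru _ _ _ h3 h5] at h4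
          exact hzy b hb (hnoy _ h4)
      intro a ha b hb v h3 h4
      rcases Relation.ReflTransGen.total_of_right_unique (fun x y z hxy hxz => hru x y z hxy hxz)
        h3 h4 with h5 | h5
      · exact key a ha b hb h5
      · exact (key b hb a ha h5).symm
    -- pigeonhole
    obtain ⟨z₀, hz₀, hz₀c⟩ : ∃ z₀ ∈ A.image z,
        ((D z₀).filter fun v => ρ v ∈ J).card < (A.filter fun k => z k = z₀).card := by
      by_contra hcon
      push Not at hcon
      have h3 : A.card ≤ ∑ z₀ ∈ A.image z, ((D z₀).filter fun v => ρ v ∈ J).card := by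
        rw [Finset.card_eq_sum_card_image z A]
        exact Finset.sum_le_sum hcon
      have h4 : ∑ z₀ ∈ A.image z, ((D z₀).filter fun v => ρ v ∈ J).card =
          ((A.image z).biUnion fun z₀ => (D z₀).filter fun v => ρ v ∈ J).card := by
        rw [Finset.card_biUnion]
        intro a ha b hb hab
        rw [Finset.mem_coe, Finset.mem_image] at ha hb
        obtain ⟨a', ha', rfl⟩ := ha
        obtain ⟨b', hb', rfl⟩ := hb
        rw [Function.onFun, Finset.disjoint_left]
        intro v hv hv'
        rw [Finset.mem_filter, hDm] at hv hv'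
        exact hab (hdisj a' ha' b' hb' v hv.1.2 hv'.1.2)
      have h5 : ((A.image z).biUnion fun z₀ => (D z₀).filter fun v => ρ v ∈ J).card ≤
          ZJ.card := by
        refine Finset.card_le_card ?_
        intro v hv
        rw [Finset.mem_biUnion] at hv
        obtain ⟨z₀, -, hv⟩ := hv
        rw [Finset.mem_filter, hDm] at hv
        exact (hZJ v).2 ⟨hv.1.1, hv.2⟩
      omega
    obtain ⟨k₀, hk₀⟩ : (A.filter fun k => z k = z₀).Nonempty := Finset.card_pos.mp (by omega)
    have hk₀' := Finset.mem_filter.1 hk₀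
    have hz₀e : z k₀ = z₀ := hk₀'.2
    have hz₀P : z₀ ∈ P := hz₀e ▸ hzP k₀ hk₀'.1
    have hz₀y : z₀ ≠ y := hz₀e ▸ hzy k₀ hk₀'.1
    have hz₀Z : z₀ ∈ Z := hz₀e ▸ hzZ k₀ hk₀'.1
    have hz₀s : M (ρ z₀) z₀ = M k₀ y := by
      have h3 := hzs k₀ hk₀'.1
      rw [hz₀e] at h3
      exact h3
    have hunk := hA k₀ hk₀'.1
    have hst' := hst.move hunk hz₀P hz₀y hz₀s
    have hzJ : ρ z₀ ∈ J := hJ _ _ hst' _ (hst.freed hunk hz₀P hz₀y)
    have hz₀D : z₀ ∈ D z₀ := (hDm _ _).2 ⟨hz₀Z, Relation.ReflTransGen.refl⟩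
    have hDZ : D z₀ ⊆ Z := Finset.filter_subset _ _
    have hyD : y ∉ D z₀ := fun h => hyZ (hDZ h)
    have hu : ∀ v, v ≠ y → Function.update ρ y k₀ v = ρ v := fun v hv =>
      Function.update_of_ne hv _ _
    have hself : Function.update ρ y k₀ y = k₀ := Function.update_self _ _ _
    refine ih ((D z₀).erase z₀).card ?_ z₀ (Function.update ρ y k₀)
      ((A.filter fun k => z k = z₀).erase k₀) ((D z₀).erase z₀) {M k₀ y} rfl hst' ?_ ?_ ?_ ?_ ?_
      ?_ (((D z₀).filter fun v => ρ v ∈ J).erase z₀) ?_ ?_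
    · rw [← hZm]
      exact Finset.card_lt_card (lt_of_lt_of_le (Finset.erase_ssubset hz₀D) hDZ)
    · intro k hk
      rw [Finset.mem_erase, Finset.mem_filter] at hk
      exact (hA k hk.2.1).move hk.1
    · intro k hk
      rw [Finset.mem_erase, Finset.mem_filter] at hk
      rw [Set.mem_singleton_iff]
      intro h3
      have h4 := hzs k hk.2.1
      rw [hk.2.2, hz₀s, ← h3] at h4
      exact hz₀y (hM k h4)
    · exact fun v hv => hZP (hDZ (Finset.mem_of_mem_erase hv))
    · exact fun h => (Finset.mem_erase.1 h).1 rfl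
    · intro v hv hvz w hw hvw ho
      rw [Finset.mem_erase] at hw
      by_cases hvy : v = y
      · exfalso
        rw [hvy, hself] at ho
        rcases h2 _ _ _ _ (occ_self M k₀ y) (hz₀s ▸ occ_self M (ρ z₀) z₀) ho with h3 | h3 | h3
        · exact hz₀y h3.symm
        · exact hyD (h3 ▸ hw.2)
        · exact hw.1 h3.symm
      · rw [hu v hvy] at ho
        have hwZ := hDZ hw.2
        have hpt : pt v w := ⟨hv, hvy, hZP hwZ, hvw, ho⟩
        exact Finset.mem_erase.2 ⟨hvz, (hDm _ _).2 ⟨hcl1 v hv hvy w hwZ hvw ho,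
          Relation.ReflTransGen.head hpt ((hDm _ _).1 hw.2).2⟩⟩
    · intro v hv hvz ho hne
      by_cases hvy : v = y
      · exfalso
        rw [hvy, hself] at hne
        exact hne rfl
      · rw [hu v hvy] at ho
        have hpt : pt v z₀ := ⟨hv, hvy, hz₀P, hvz, ho⟩
        exact Finset.mem_erase.2 ⟨hvz, (hDm _ _).2 ⟨hcl1 v hv hvy z₀ hz₀Z hvz ho,
          Relation.ReflTransGen.single hpt⟩⟩
    · intro v
      rw [Finset.mem_erase, Finset.mem_filter, Finset.mem_erase]
      constructor
      · rintro ⟨h3, h4, h5⟩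
        refine ⟨⟨h3, h4⟩, ?_⟩
        rw [hu v (fun e => hyD (e ▸ h4))]
        exact h5
      · rintro ⟨⟨h3, h4⟩, h5⟩
        rw [hu v (fun e => hyD (e ▸ h4))] at h5
        exact ⟨h3, h4, h5⟩
    · rw [Finset.card_erase_of_mem (Finset.mem_filter.2 ⟨hz₀D, hzJ⟩),
        Finset.card_erase_of_mem hk₀]
      have : 0 < ((D z₀).filter fun v => ρ v ∈ J).card :=
        Finset.card_pos.mpr ⟨z₀, Finset.mem_filter.2 ⟨hz₀D, hzJ⟩⟩
      omega

/-- a cover of the columns `P` by distinct rows with distinct symbols is a transversal of these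
rows -/
theorem sol_of_cover [DecidableEq ι] (M : ι → X → α) (P : Finset X) (ρ : X → ι)
    (hne : Nonempty X) (hinj : ∀ v ∈ P, ∀ w ∈ P, ρ v = ρ w → v = w)
    (hsym : ∀ v ∈ P, ∀ w ∈ P, M (ρ v) v = M (ρ w) w → v = w) :
    ∃ f : ι → X, Sol M (P.image ρ) P f ∧ ∀ v ∈ P, f (ρ v) = v := by
  classical
  have hex : ∀ i ∈ P.image ρ, ∃ v ∈ P, ρ v = i := by
    intro i hi
    rw [Finset.mem_image] at hi
    exact hi
  choose! f hf1 hf2 using hex
  have hf3 : ∀ v ∈ P, f (ρ v) = v := fun v hv =>
    hinj _ (hf1 _ (Finset.mem_image_of_mem ρ hv)) v hv (hf2 _ (Finset.mem_image_of_mem ρ hv))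
  refine ⟨f, ⟨fun i hi => hf1 i hi, fun i hi k hk h => ?_, fun i hi k hk h => ?_⟩, hf3⟩
  · rw [← hf2 i hi, ← hf2 k hk, h]
  · have h3 : M (ρ (f i)) (f i) = M (ρ (f k)) (f k) := by rw [hf2 i hi, hf2 k hk, h]
    have h4 := hsym _ (hf1 i hi) _ (hf1 k hk) h3
    rw [← hf2 i hi, ← hf2 k hk, h4]

theorem Sol.glue [DecidableEq ι] {M : ι → X → α} {R U : Finset ι} {V P S : Finset X}
    {f g : ι → X} (hf : Sol M U P f) (hg : Sol M (R \ U) S g) (hPV : P ⊆ V) (hSV : S ⊆ V)
    (hPS : Disjoint P S) (hne : ∀ u ∈ U, ∀ k ∈ R \ U, M u (f u) ≠ M k (g k)) :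
    Sol M R V fun i => if i ∈ U then f i else g i := by
  have h1 : ∀ i ∈ R, i ∉ U → i ∈ R \ U := fun i hi hn => Finset.mem_sdiff.2 ⟨hi, hn⟩
  have hdis : ∀ u ∈ U, ∀ k ∈ R \ U, f u ≠ g k := fun u hu k hk h =>
    Finset.disjoint_left.1 hPS (hf.mem u hu) (h ▸ hg.mem k hk)
  refine ⟨fun i hi => ?_, fun i hi k hk h => ?_, fun i hi k hk h => ?_⟩
  · by_cases hiU : i ∈ U
    · simp only [if_pos hiU]
      exact hPV (hf.mem i hiU)
    · simp only [if_neg hiU]
      exact hSV (hg.mem i (h1 i hi hiU))
  · by_cases hiU : i ∈ U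
    · by_cases hkU : k ∈ U
      · simp only [if_pos hiU, if_pos hkU] at h
        exact hf.inj i hiU k hkU h
      · simp only [if_pos hiU, if_neg hkU] at h
        exact absurd h (hdis i hiU k (h1 k hk hkU))
    · by_cases hkU : k ∈ U
      · simp only [if_neg hiU, if_pos hkU] at h
        exact absurd h.symm (hdis k hkU i (h1 i hi hiU))
      · simp only [if_neg hiU, if_neg hkU] at h
        exact hg.inj i (h1 i hi hiU) k (h1 k hk hkU) h
  · by_cases hiU : i ∈ U
    · by_cases hkU : k ∈ U
      · simp only [if_pos hiU, if_pos hkU] at h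
        exact hf.val i hiU k hkU h
      · simp only [if_pos hiU, if_neg hkU] at h
        exact absurd h (hne i hiU k (h1 k hk hkU))
    · by_cases hkU : k ∈ U
      · simp only [if_neg hiU, if_pos hkU] at h
        exact absurd h.symm (hne k hkU i (h1 i hi hiU))
      · simp only [if_neg hiU, if_neg hkU] at h
        exact hg.val i (h1 i hi hiU) k (h1 k hk hkU) h

/-- The theorem for the rows `R` and the columns `V`. -/
theorem two_col_aux {M : ι → X → α} (hM : ∀ i, Function.Injective (M i)) (h2 : TwoCol M)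
    (n : ℕ) : ∀ (R : Finset ι) (V : Finset X), V.card = n → R.card + 1 = V.card →
      ∃ f : ι → X, Sol M R V f := by
  classical
  induction n using Nat.strong_induction_on with
  | _ n ih =>
    intro R V hVn hRV
    by_contra hno
    obtain ⟨x₀, hx₀⟩ : V.Nonempty := Finset.card_pos.mp (by omega)
    have hneX : Nonempty X := ⟨x₀⟩
    rcases R.eq_empty_or_nonempty with h0 | ⟨i₀, hi₀⟩
    · refine hno ⟨fun _ => x₀, ⟨fun i hi => ?_, fun i hi => ?_, fun i hi => ?_⟩⟩ <;>
      · rw [h0] at hi
        exact absurd hi (Finset.notMem_empty _)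
    -- a state with the largest number of columns
    obtain ⟨P, hP, hmax⟩ : ∃ P : Finset X, (∃ r ρ, St M R V P r ρ) ∧
        ∀ P' : Finset X, (∃ r ρ, St M R V P' r ρ) → P'.card ≤ P.card := by
      obtain ⟨P, hP, hm⟩ := Finset.exists_max_image
        (V.powerset.filter fun P => ∃ r ρ, St M R V P r ρ) Finset.card
        ⟨{x₀}, Finset.mem_filter.2 ⟨Finset.mem_powerset.2 (Finset.singleton_subset_iff.2 hx₀),
          x₀, fun _ => i₀, ⟨Finset.mem_singleton_self _, Finset.singleton_subset_iff.2 hx₀,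
            fun v hv hne => absurd (Finset.mem_singleton.1 hv) hne,
            fun v hv hne => absurd (Finset.mem_singleton.1 hv) hne,
            fun v hv hne => absurd (Finset.mem_singleton.1 hv) hne,
            fun v hv hne => absurd (Finset.mem_singleton.1 hv) hne⟩⟩⟩
      refine ⟨P, (Finset.mem_filter.1 hP).2, fun P' hP' => hm P' ?_⟩
      obtain ⟨r, ρ, h⟩ := hP'
      exact Finset.mem_filter.2 ⟨Finset.mem_powerset.2 h.hPV, r, ρ, h⟩
    obtain ⟨S, hS⟩ : ∃ S, S = V \ P := ⟨_, rfl⟩
    obtain ⟨J, hJd⟩ : ∃ J : Finset ι,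
        J = R.filter fun k => ∀ x ∈ V, x ∉ P → ∀ p ∈ P, ¬ Occ M (M k x) p := ⟨_, rfl⟩
    have hJm : ∀ k, k ∈ J ↔ k ∈ R ∧ ∀ x ∈ V, x ∉ P → ∀ p ∈ P, ¬ Occ M (M k x) p := by
      intro k
      rw [hJd, Finset.mem_filter]
    -- unused rows are closed outside of `P`
    have hJ : ∀ y ρ, St M R V P y ρ → ∀ k, Unused R P y ρ k → k ∈ J := by
      intro y ρ hst k hk
      rw [hJm]
      refine ⟨hk.1, fun x hx hxP p hp ho => ?_⟩
      have h3 := hmax _ ⟨y, _, hst.ext h2 hk hx hxP hp ho⟩
      rw [Finset.card_insert_of_notMem hxP] at h3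
      omega
    obtain ⟨r, ρ, hst⟩ := hP
    have hPV := hst.hPV
    have hSc : S.card = V.card - P.card := by
      rw [hS, Finset.card_sdiff_of_subset hPV]
    have hPc := Finset.card_le_card hPV
    have hPpos : 0 < P.card := Finset.card_pos.mpr ⟨r, hst.hr⟩
    have hSV : S ⊆ V := by
      rw [hS]
      exact Finset.sdiff_subset
    have hPS : Disjoint P S := by
      rw [hS]
      exact Finset.disjoint_sdiff
    have hSm : ∀ x, x ∈ S ↔ x ∈ V ∧ x ∉ P := by
      intro x
      rw [hS, Finset.mem_sdiff]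
    -- the used rows of a state
    have hused : ∀ y ρ, St M R V P y ρ → ((P.erase y).image ρ).card = P.card - 1 ∧
        (P.erase y).image ρ ⊆ R := by
      intro y ρ hst
      constructor
      · rw [Finset.card_image_of_injOn, Finset.card_erase_of_mem hst.hr]
        intro v hv w hw h
        rw [Finset.mem_coe, Finset.mem_erase] at hv hw
        exact hst.inj v hv.2 hv.1 w hw.2 hw.1 h
      · intro i hi
        rw [Finset.mem_image] at hi
        obtain ⟨v, hv, rfl⟩ := hi
        rw [Finset.mem_erase] at hv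
        exact hst.mem v hv.2 hv.1
    have hunu : ∀ y ρ, St M R V P y ρ → ∀ k, k ∈ R \ (P.erase y).image ρ ↔
        Unused R P y ρ k := by
      intro y ρ hst k
      rw [Finset.mem_sdiff, Finset.mem_image]
      constructor
      · rintro ⟨h3, h4⟩
        exact ⟨h3, fun v hv hvy h => h4 ⟨v, Finset.mem_erase.2 ⟨hvy, hv⟩, h⟩⟩
      · rintro ⟨h3, h4⟩
        refine ⟨h3, ?_⟩
        rintro ⟨v, hv, h⟩
        rw [Finset.mem_erase] at hv
        exact h4 v hv.2 hv.1 h
    -- the free column of a state
    have hM2 : ∀ y ρ, St M R V P y ρ → ∀ k, Unused R P y ρ k → ∃ z ∈ P, z ≠ y ∧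
        M (ρ z) z = M k y := by
      intro y ρ hst k hk
      by_contra hcon
      push Not at hcon
      have hu : ∀ v, v ≠ y → Function.update ρ y k v = ρ v := fun v hv =>
        Function.update_of_ne hv _ _
      have hself : Function.update ρ y k y = k := Function.update_self _ _ _
      obtain ⟨f, hf, hfρ⟩ := sol_of_cover M P (Function.update ρ y k) hneX (by
        intro v hv w hw h
        by_cases hvy : v = y
        · by_cases hwy : w = y
          · rw [hvy, hwy]
          · rw [hvy, hself, hu w hwy] at h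
            exact absurd h.symm (hk.2 w hw hwy)
        · by_cases hwy : w = y
          · rw [hwy, hself, hu v hvy] at h
            exact absurd h (hk.2 v hv hvy)
          · rw [hu v hvy, hu w hwy] at h
            exact hst.inj v hv hvy w hw hwy h) (by
        intro v hv w hw h
        by_cases hvy : v = y
        · by_cases hwy : w = y
          · rw [hvy, hwy]
          · rw [hvy, hself, hu w hwy] at h
            exact absurd h.symm (hcon w hw hwy)
        · by_cases hwy : w = y
          · rw [hwy, hself, hu v hvy] at h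
            exact absurd h (hcon v hv hvy)
          · rw [hu v hvy, hu w hwy] at h
            exact hst.sym v hv hvy w hw hwy h)
      have hPim : P.image (Function.update ρ y k) = insert k ((P.erase y).image ρ) := by
        ext i
        rw [Finset.mem_image, Finset.mem_insert, Finset.mem_image]
        constructor
        · rintro ⟨v, hv, rfl⟩
          by_cases hvy : v = y
          · left
            rw [hvy, hself]
          · right
            exact ⟨v, Finset.mem_erase.2 ⟨hvy, hv⟩, (hu v hvy).symm⟩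
        · rintro (rfl | ⟨v, hv, rfl⟩)
          · exact ⟨y, hst.hr, hself⟩
          · rw [Finset.mem_erase] at hv
            exact ⟨v, hv.2, hu v hv.1⟩
      have hkn : k ∉ (P.erase y).image ρ := (Finset.mem_sdiff.1 ((hunu y ρ hst k).2 hk)).2
      have hUR : insert k ((P.erase y).image ρ) ⊆ R :=
        Finset.insert_subset hk.1 (hused y ρ hst).2
      have hUc : (insert k ((P.erase y).image ρ)).card = P.card := by
        rw [Finset.card_insert_of_notMem hkn, (hused y ρ hst).1]
        omega
      rw [hPim] at hf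
      have hUle := Finset.card_le_card hUR
      obtain ⟨g, hg⟩ := ih S.card (by omega) (R \ insert k ((P.erase y).image ρ)) S rfl (by
        rw [Finset.card_sdiff_of_subset hUR, hUc]
        omega)
      refine hno ⟨_, hf.glue hg hPV hSV hPS ?_⟩
      intro u hu' j hj h
      have hjm := Finset.mem_sdiff.1 hj
      rw [Finset.mem_insert, not_or] at hjm
      have hjJ : j ∈ J := hJ y ρ hst j ((hunu y ρ hst j).1 (Finset.mem_sdiff.2
        ⟨hjm.1, hjm.2.2⟩))
      have hgS := (hSm _).1 (hg.mem j hj)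
      refine ((hJm j).1 hjJ).2 (g j) hgS.1 hgS.2 (f u) (hf.mem u hu') ?_
      rw [← h]
      exact occ_self M u (f u)
    -- `P` is not everything
    have hSpos : 0 < S.card := by
      by_contra hS0
      have hPe : P = V := Finset.eq_of_subset_of_card_le hPV (by omega)
      obtain ⟨f, hf, -⟩ := sol_of_cover M (P.erase r) ρ hneX (by
        intro v hv w hw h
        rw [Finset.mem_erase] at hv hw
        exact hst.inj v hv.2 hv.1 w hw.2 hw.1 h) (by
        intro v hv w hw h
        rw [Finset.mem_erase] at hv hw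
        exact hst.sym v hv.2 hv.1 w hw.2 hw.1 h)
      have hRe : (P.erase r).image ρ = R := by
        refine Finset.eq_of_subset_of_card_le (hused r ρ hst).2 ?_
        rw [(hused r ρ hst).1]
        omega
      rw [hRe] at hf
      exact hno ⟨f, ⟨fun i hi => hPV (Finset.mem_of_mem_erase (hf.mem i hi)), hf.inj, hf.val⟩⟩
    -- Drisko's theorem: few closed rows
    have hJc : J.card + 1 < 2 * S.card := by
      by_contra hcon
      obtain ⟨g, hg1, hg2⟩ := Pool.Agent.H30.ST.drisko
        (fun (k : {k // k ∈ J}) (x : {x // x ∈ S}) => M k.1 x.1)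
        (fun k x x' h => Subtype.ext (hM k.1 h))
        (by rw [Fintype.card_coe, Fintype.card_coe]; omega)
      obtain ⟨f, hf, hfρ⟩ := sol_of_cover M S
        (fun x => if hx : x ∈ S then (g ⟨x, hx⟩).1 else i₀) hneX (by
        intro v hv w hw h
        simp only [dif_pos hv, dif_pos hw] at h
        exact Subtype.mk.inj (hg1 (Subtype.ext h))) (by
        intro v hv w hw h
        simp only [dif_pos hv, dif_pos hw] at h
        exact Subtype.mk.inj (hg2 h))
      obtain ⟨U, hU⟩ : ∃ U, U = S.image fun x => if hx : x ∈ S then (g ⟨x, hx⟩).1 else i₀ :=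
        ⟨_, rfl⟩
      rw [← hU] at hf
      have hUJ : U ⊆ J := by
        intro i hi
        rw [hU, Finset.mem_image] at hi
        obtain ⟨x, hx, rfl⟩ := hi
        rw [dif_pos hx]
        exact (g ⟨x, hx⟩).2
      have hUR : U ⊆ R := fun i hi => ((hJm i).1 (hUJ hi)).1
      have hUc : U.card = S.card := by
        rw [hU]
        refine Finset.card_image_of_injOn ?_
        intro v hv w hw h
        rw [Finset.mem_coe] at hv hw
        simp only [dif_pos hv, dif_pos hw] at h
        exact Subtype.mk.inj (hg1 (Subtype.ext h))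
      have hUle := Finset.card_le_card hUR
      obtain ⟨f', hf'⟩ := ih P.card (by omega) (R \ U) P rfl (by
        rw [Finset.card_sdiff_of_subset hUR, hUc]
        omega)
      refine hno ⟨_, hf.glue hf' hSV hPV hPS.symm ?_⟩
      intro u hu j hj h
      have hfS := (hSm _).1 (hf.mem u hu)
      refine ((hJm u).1 (hUJ hu)).2 (f u) hfS.1 hfS.2 (f' j) (hf'.mem j hj) ?_
      rw [h]
      exact occ_self M j (f' j)
    -- the counting argument
    refine pocket hM h2 hJ hM2 (P.erase r).card r ρ (R \ (P.erase r).image ρ) (P.erase r) ∅ rfl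
      hst (fun k hk => (hunu r ρ hst k).1 hk) (fun k _ => Set.notMem_empty _)
      (Finset.erase_subset _ _) (Finset.notMem_erase _ _)
      (fun v hv hvr w _ _ _ => Finset.mem_erase.2 ⟨hvr, hv⟩)
      (fun v hv hvr _ _ => Finset.mem_erase.2 ⟨hvr, hv⟩)
      ((P.erase r).filter fun v => ρ v ∈ J) (fun v => Finset.mem_filter) ?_
    have hKc : (R \ (P.erase r).image ρ).card = S.card := by
      rw [Finset.card_sdiff_of_subset (hused r ρ hst).2, (hused r ρ hst).1]
      omega
    have hsub : (R \ (P.erase r).image ρ) ∪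
        (((P.erase r).filter fun v => ρ v ∈ J).image ρ) ⊆ J := by
      intro k hk
      rw [Finset.mem_union] at hk
      rcases hk with hk | hk
      · exact hJ r ρ hst k ((hunu r ρ hst k).1 hk)
      · rw [Finset.mem_image] at hk
        obtain ⟨v, hv, rfl⟩ := hk
        exact (Finset.mem_filter.1 hv).2
    have hdj : Disjoint (R \ (P.erase r).image ρ)
        (((P.erase r).filter fun v => ρ v ∈ J).image ρ) := by
      rw [Finset.disjoint_left]
      intro k hk hk'
      exact (Finset.mem_sdiff.1 hk).2 (Finset.image_subset_image (Finset.filter_subset _ _) hk')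
    have hic : (((P.erase r).filter fun v => ρ v ∈ J).image ρ).card =
        ((P.erase r).filter fun v => ρ v ∈ J).card := by
      refine Finset.card_image_of_injOn ?_
      intro v hv w hw h
      rw [Finset.mem_coe, Finset.mem_filter, Finset.mem_erase] at hv hw
      exact hst.inj v hv.1.2 hv.1.1 w hw.1.2 hw.1.1 h
    have h3 := Finset.card_le_card hsub
    rw [Finset.card_union_of_disjoint hdj, hic, hKc] at h3
    rw [hKc]
    omega

end two

end Pool.Agent.H40.ST2
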